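import Pool.Agent.R191.Ext.Prod3

/-!
# The bundles over the attractor
-/

set_option autoImplicit false

open Set Filter Topology MeasureTheory Function
open scoped ContDiff

namespace Pool.Agent.R191.Ext

open Pool.Agent.TH292.MR

lemma fderiv_FF_surj (z : Plane) : Surjective (fderiv ℝ FF z) := by
  have hinj : Injective (fderiv ℝ FF z) := by
    rw [injective_iff_map_eq_zero]
    intro v hv
    have h := CG_spec z v
    rw [hv, norm_zero, mul_zero] at h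
    exact norm_le_zero_iff.1 h
  exact (LinearMap.injective_iff_surjective (f := (fderiv ℝ FF z : Plane →ₗ[ℝ] Plane))).1 hinj

lemma al_ne : (1 : ℝ) - al ≠ 0 := by linarith [al_lt]

lemma fderiv_F3_La {z : R3} (hz : proj3 z ∈ La) (n : ℕ) (v : R3) :
    fderiv ℝ F3^[n] z v = (fderiv ℝ FF^[n] z.1 v.1, (1 - al) ^ n * v.2) := by
  obtain ⟨m, hm⟩ := mem_La.1 hz
  rw [fderiv_F3, hm]
  have := HH_int_iter n m v.2
  simp only [ContinuousLinearMap.coe_prodMap', Prod.map_apply']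
  rw [this]

lemma cont_Es : IsContSubbundle La Es :=
  ⟨fun _ => (ContinuousLinearMap.inr ℝ Plane ℝ).comp (ContinuousLinearMap.snd ℝ Plane ℝ),
    continuousOn_const, fun x _ => ⟨fun v => mem_Es.2 rfl, fun v hv => by
      have := mem_Es.1 hv
      ext <;> simp [this]⟩⟩

lemma cont_Ecu : IsContSubbundle La Ecu :=
  ⟨fun _ => (ContinuousLinearMap.inl ℝ Plane ℝ).comp (ContinuousLinearMap.fst ℝ Plane ℝ),
    continuousOn_const, fun x _ => ⟨fun v => mem_Ecu.2 rfl, fun v hv => by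
      have := mem_Ecu.1 hv
      ext <;> simp [this]⟩⟩

lemma inv_Es : IsInvBundle f3 F3 La Es := by
  intro z hz
  have h1 : ∀ v, fderiv ℝ F3 z v = (fderiv ℝ FF z.1 v.1, (1 - al) * v.2) := by
    intro v
    have := fderiv_F3_La hz 1 v
    simpa using this
  ext w
  rw [Submodule.mem_map]
  constructor
  · rintro ⟨v, hv, rfl⟩
    have hv' := mem_Es.1 hv
    apply mem_Es.2
    show (fderiv ℝ F3 z v).1 = 0
    rw [h1, hv', map_zero]
  · intro hw
    have hw' := mem_Es.1 hw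
    refine ⟨(0, (1 - al)⁻¹ * w.2), mem_Es.2 rfl, ?_⟩
    show fderiv ℝ F3 z _ = w
    rw [h1]
    simp only [map_zero]
    rw [← mul_assoc, mul_inv_cancel₀ al_ne, one_mul]
    exact Prod.ext hw'.symm rfl

lemma inv_Ecu : IsInvBundle f3 F3 La Ecu := by
  intro z hz
  have h1 : ∀ v, fderiv ℝ F3 z v = (fderiv ℝ FF z.1 v.1, (1 - al) * v.2) := by
    intro v
    have := fderiv_F3_La hz 1 v
    simpa using this
  ext w
  rw [Submodule.mem_map]
  constructor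
  · rintro ⟨v, hv, rfl⟩
    have hv' := mem_Ecu.1 hv
    apply mem_Ecu.2
    show (fderiv ℝ F3 z v).2 = 0
    rw [h1, hv', mul_zero]
  · intro hw
    have hw' := mem_Ecu.1 hw
    obtain ⟨v, hv⟩ := fderiv_FF_surj z.1 w.1
    refine ⟨(v, 0), mem_Ecu.2 rfl, ?_⟩
    show fderiv ℝ F3 z _ = w
    rw [h1]
    simp only [mul_zero]
    exact Prod.ext hv hw'.symm

theorem splitting3 : IsInvSplitting f3 F3 La (fun _ => ⊤) Es Ecu where
  cont₁ := cont_Es
  cont₂ := cont_Ecu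
  inv₁ := inv_Es
  inv₂ := inv_Ecu
  ne₁ x _ := by
    intro h
    have : ((0, 1) : R3) ∈ Es x := mem_Es.2 rfl
    rw [h, Submodule.mem_bot] at this
    have := congrArg Prod.snd this
    simp at this
  ne₂ x _ := by
    intro h
    have : (((1, 0), 0) : R3) ∈ Ecu x := mem_Ecu.2 rfl
    rw [h, Submodule.mem_bot] at this
    have := congrArg (fun v : R3 => v.1.1) this
    simp at this
  disjoint x _ := by
    rw [Submodule.disjoint_def]
    intro v hv hw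
    exact Prod.ext (mem_Es.1 hv) (mem_Ecu.1 hw)
  sup x _ := by
    rw [eq_top_iff]
    intro v _
    rw [Submodule.mem_sup]
    exact ⟨(0, v.2), mem_Es.2 rfl, (v.1, 0), mem_Ecu.2 rfl, by ext <;> simp⟩

theorem scu3 : HasStableCenterUnstable f3 F3 La Es Ecu := by
  have hC := one_le_CG
  have ha := al_lt
  have hb := one_sub_al
  refine ⟨splitting3, 1, 1 / 2, one_pos, by norm_num, by norm_num, ?_, ?_⟩
  · intro z hz n v hv hv1
    have hv' := mem_Es.1 hv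
    rw [fderiv_F3_La hz, hv', map_zero, norm_zero_prod, abs_mul, abs_of_pos (pow_pos (by linarith) n)]
    have e : |v.2| = 1 := by
      rw [← norm_zero_prod, ← hv', Prod.mk.eta]; exact hv1
    rw [e, mul_one, one_mul]
    exact pow_le_pow_left₀ (by linarith) one_sub_al_le n
  · intro z hz n v hv w hw hv1 hw1
    have hv' := mem_Es.1 hv
    have hw' := mem_Ecu.1 hw
    rw [fderiv_F3_La hz, hv', map_zero, norm_zero_prod, abs_mul, abs_of_pos (pow_pos (by linarith) n)]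
    have e : |v.2| = 1 := by
      rw [← norm_zero_prod, ← hv', Prod.mk.eta]; exact hv1
    have e2 : ‖w.1‖ = 1 := by
      rw [← norm_prod_zero, ← hw', Prod.mk.eta]; exact hw1
    rw [fderiv_F3_La hz, hw', mul_zero, norm_prod_zero, e, mul_one, one_mul]
    have h1 := CG_iter n z.1 w.1
    rw [e2] at h1
    have h2 : (1 - al) ^ n * CG ^ n = (1 / 2) ^ n := by rw [← mul_pow, hb]
    have h3 : 0 < (1 - al) ^ n := pow_pos (by linarith) n
    calc (1 - al) ^ n = (1 - al) ^ n * 1 := by ring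
      _ ≤ (1 - al) ^ n * (CG ^ n * ‖fderiv ℝ FF^[n] z.1 w.1‖) := by gcongr
      _ = (1 / 2) ^ n * ‖fderiv ℝ FF^[n] z.1 w.1‖ := by rw [← mul_assoc, h2]

lemma finrank_Ecu (x : T3) : Module.finrank ℝ (Ecu x) = 2 := by
  unfold Ecu
  rw [LinearMap.finrank_range_of_inj LinearMap.inl_injective]
  simp

/-! ### no dominated subsplitting -/

/-- the orbit in the attractor -/
noncomputable def ZZ (m : ℤ) : R3 := (XX m, 0)

lemma ZZ_mem (m : ℤ) : proj3 (ZZ m) ∈ La := mem_La.2 ⟨0, by simp [ZZ]⟩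

lemma f3_ZZ (m : ℤ) : f3 (proj3 (ZZ m)) = proj3 (ZZ (m + 1)) := by
  rw [smooth3.lift]
  congr 1
  unfold F3 ZZ
  rw [Prod.map_apply, FF_XX, HH_zero]

/-- the trace of a bundle on the plane -/
def Tr (E : T3 → Submodule ℝ R3) (m : ℤ) : Set Plane := {v | ((v, 0) : R3) ∈ E (proj3 (ZZ m))}

section

variable {E₁ E₂ : T3 → Submodule ℝ R3}

lemma tr_fwd {E : T3 → Submodule ℝ R3} (h : IsInvBundle f3 F3 La E) {m : ℤ} {v : Plane}
    (hv : v ∈ Tr E m) : fderiv ℝ FF (XX m) v ∈ Tr E (m + 1) := by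
  have h1 := h (ZZ m) (ZZ_mem m)
  rw [f3_ZZ] at h1
  show ((_, 0) : R3) ∈ E (proj3 (ZZ (m + 1)))
  rw [← h1, Submodule.mem_map]
  refine ⟨(v, 0), hv, ?_⟩
  have h2 := fderiv_inl 1 (ZZ m) v
  simp only [iterate_one] at h2
  exact h2

lemma tr_fwd_iter {E : T3 → Submodule ℝ R3} (h : IsInvBundle f3 F3 La E) (n : ℕ) {m : ℤ} {v : Plane}
    (hv : v ∈ Tr E m) : fderiv ℝ FF^[n] (XX m) v ∈ Tr E (m + n) := by
  induction n with
  | zero => simpa using hv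
  | succ n ih =>
    rw [fderiv_iter_succ, ContinuousLinearMap.comp_apply, FF_iter_XX]
    have := tr_fwd h ih
    push_cast
    rw [← add_assoc]
    exact this

lemma tr_bwd {E : T3 → Submodule ℝ R3} (h : IsInvBundle f3 F3 La E)
    (hE : ∀ x ∈ La, E x ≤ Ecu x) {m : ℤ} {w : Plane}
    (hw : w ∈ Tr E (m + 1)) : ∃ v ∈ Tr E m, fderiv ℝ FF (XX m) v = w := by
  have h1 := h (ZZ m) (ZZ_mem m)
  rw [f3_ZZ] at h1
  have hw' : ((w, 0) : R3) ∈ E (proj3 (ZZ (m + 1))) := hw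
  rw [← h1, Submodule.mem_map] at hw'
  obtain ⟨v, hv, hvw⟩ := hw'
  have hv2 : v.2 = 0 := mem_Ecu.1 (hE _ (ZZ_mem m) hv)
  have hv3 : v = (v.1, 0) := Prod.ext rfl hv2
  refine ⟨v.1, ?_, ?_⟩
  · show ((v.1, 0) : R3) ∈ E (proj3 (ZZ m))
    rw [← hv3]; exact hv
  · have h2 := fderiv_inl 1 (ZZ m) v.1
    simp only [iterate_one] at h2
    have h3 : fderiv ℝ F3 (ZZ m) v = (w, 0) := hvw
    rw [hv3, h2] at h3
    exact congrArg Prod.fst h3

lemma tr_bwd_iter {E : T3 → Submodule ℝ R3} (h : IsInvBundle f3 F3 La E)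
    (hE : ∀ x ∈ La, E x ≤ Ecu x) (n : ℕ) {m : ℤ} {w : Plane}
    (hw : w ∈ Tr E (m + n)) : ∃ v ∈ Tr E m, fderiv ℝ FF^[n] (XX m) v = w := by
  induction n generalizing w with
  | zero => exact ⟨w, by simpa using hw, by simp⟩
  | succ n ih =>
    have hw' : w ∈ Tr E (m + n + 1) := by
      have : m + n + 1 = m + ((n + 1 : ℕ) : ℤ) := by push_cast; ring
      rw [this]; exact hw
    obtain ⟨v, hv, hvw⟩ := tr_bwd h hE hw'
    obtain ⟨u, hu, huv⟩ := ih hv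
    refine ⟨u, hu, ?_⟩
    rw [fderiv_iter_succ, ContinuousLinearMap.comp_apply, huv, FF_iter_XX, hvw]

lemma tr_ne {E : T3 → Submodule ℝ R3} (hne : ∀ x ∈ La, E x ≠ ⊥)
    (hE : ∀ x ∈ La, E x ≤ Ecu x) (m : ℤ) : ∃ v ∈ Tr E m, v ≠ 0 := by
  obtain ⟨v, hv, hv0⟩ := Submodule.exists_mem_ne_zero_of_ne_bot (hne _ (ZZ_mem m))
  have hv2 : v.2 = 0 := mem_Ecu.1 (hE _ (ZZ_mem m) hv)
  have hv3 : v = (v.1, 0) := Prod.ext rfl hv2
  refine ⟨v.1, ?_, ?_⟩
  · show ((v.1, 0) : R3) ∈ E (proj3 (ZZ m))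
    rw [← hv3]; exact hv
  · intro h
    apply hv0
    rw [hv3, h]
    rfl

variable (h : IsInvSplitting f3 F3 La Ecu E₁ E₂)
include h

lemma le1 : ∀ x ∈ La, E₁ x ≤ Ecu x := fun x hx => (h.sup x hx) ▸ le_sup_left
lemma le2 : ∀ x ∈ La, E₂ x ≤ Ecu x := fun x hx => (h.sup x hx) ▸ le_sup_right

lemma tr_decomp (m : ℤ) (v : Plane) : ∃ a ∈ Tr E₁ m, ∃ b ∈ Tr E₂ m, a + b = v := by
  have hv : ((v, 0) : R3) ∈ Ecu (proj3 (ZZ m)) := mem_Ecu.2 rfl
  rw [← h.sup _ (ZZ_mem m), Submodule.mem_sup] at hv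
  obtain ⟨a, ha, b, hb, hab⟩ := hv
  have ha2 : a.2 = 0 := mem_Ecu.1 (le1 h _ (ZZ_mem m) ha)
  have hb2 : b.2 = 0 := mem_Ecu.1 (le2 h _ (ZZ_mem m) hb)
  have ha3 : a = (a.1, 0) := Prod.ext rfl ha2
  have hb3 : b = (b.1, 0) := Prod.ext rfl hb2
  refine ⟨a.1, ?_, b.1, ?_, congrArg Prod.fst hab⟩
  · show ((a.1, 0) : R3) ∈ E₁ (proj3 (ZZ m))
    rw [← ha3]; exact ha
  · show ((b.1, 0) : R3) ∈ E₂ (proj3 (ZZ m))
    rw [← hb3]; exact hb

lemma angle : ∃ c : ℝ, 0 < c ∧ ∀ m : ℤ, ∀ v ∈ Tr E₁ m, ∀ w ∈ Tr E₂ m,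
    c * ‖v‖ * ‖w‖ ≤ |cross v w| := by
  obtain ⟨P, hPc, hP⟩ := h.cont₁
  obtain ⟨Q, hQc, hQ⟩ := h.cont₂
  -- the compact set
  set K0 : Set (T3 × (Plane × Plane)) := La ×ˢ (Metric.sphere 0 1 ×ˢ Metric.sphere 0 1) with hK0
  have hK0c : IsCompact K0 := La_compact.prod ((isCompact_sphere _ _).prod (isCompact_sphere _ _))
  set φ : T3 × (Plane × Plane) → R3 × R3 := fun p =>
    (P p.1 (p.2.1, 0) - (p.2.1, 0), Q p.1 (p.2.2, 0) - (p.2.2, 0)) with hφ
  have hφc : ContinuousOn φ K0 := by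
    have hP1 : ContinuousOn (fun p : T3 × (Plane × Plane) => P p.1) K0 :=
      hPc.comp continuousOn_fst (fun p hp => hp.1)
    have hQ1 : ContinuousOn (fun p : T3 × (Plane × Plane) => Q p.1) K0 :=
      hQc.comp continuousOn_fst (fun p hp => hp.1)
    have hv : ContinuousOn (fun p : T3 × (Plane × Plane) => ((p.2.1, 0) : R3)) K0 := by fun_prop
    have hw : ContinuousOn (fun p : T3 × (Plane × Plane) => ((p.2.2, 0) : R3)) K0 := by fun_prop
    exact ((hP1.clm_apply hv).sub hv).prodMk ((hQ1.clm_apply hw).sub hw)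
  set S : Set (T3 × (Plane × Plane)) := K0 ∩ φ ⁻¹' {0} with hS
  have hSc : IsCompact S :=
    hK0c.of_isClosed_subset (hφc.preimage_isClosed_of_isClosed hK0c.isClosed isClosed_singleton)
      inter_subset_left
  have hpos : ∀ p ∈ S, cross p.2.1 p.2.2 ≠ 0 := by
    rintro ⟨x, v, w⟩ ⟨⟨hx, hv, hw⟩, hp⟩ hcross
    simp only at hx hv hw hcross
    rw [mem_sphere_zero_iff_norm] at hv hw
    have hp' : φ (x, v, w) = 0 := hp
    rw [hφ] at hp'
    simp only [Prod.mk_eq_zero] at hp'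
    have hv1 : ((v, 0) : R3) ∈ E₁ x := by
      have := (hP x hx).1 (v, 0)
      rwa [sub_eq_zero.1 hp'.1] at this
    have hw1 : ((w, 0) : R3) ∈ E₂ x := by
      have := (hQ x hx).1 (w, 0)
      rwa [sub_eq_zero.1 hp'.2] at this
    -- parallel vectors
    have hpar : ∃ t : ℝ, w = t • v := by
      unfold cross at hcross
      have hv0 : v ≠ 0 := by rintro rfl; simp at hv
      by_cases h1 : v.1 = 0
      · have h2 : v.2 ≠ 0 := fun h2 => hv0 (Prod.ext h1 h2)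
        refine ⟨w.2 / v.2, ?_⟩
        rw [h1, zero_mul, zero_sub, neg_eq_zero] at hcross
        rcases mul_eq_zero.1 hcross with h3 | h3
        · exact absurd h3 h2
        · ext
          · simp [h1, h3]
          · simp only [Prod.smul_snd, smul_eq_mul]; field_simp
      · refine ⟨w.1 / v.1, ?_⟩
        ext
        · simp only [Prod.smul_fst, smul_eq_mul]; field_simp
        · simp only [Prod.smul_snd, smul_eq_mul]; field_simp; linarith
    obtain ⟨t, ht⟩ := hpar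
    have hw2 : ((w, 0) : R3) ∈ E₁ x := by
      have e : ((w, 0) : R3) = t • (v, 0) := by rw [ht]; ext <;> simp
      rw [e]
      exact (E₁ x).smul_mem t hv1
    have := (Submodule.disjoint_def.1 (h.disjoint x hx)) _ hw2 hw1
    have hw0 : w = 0 := congrArg Prod.fst this
    rw [hw0, norm_zero] at hw
    exact zero_ne_one hw
  have hcc : Continuous fun p : T3 × (Plane × Plane) => cross p.2.1 p.2.2 := by
    unfold cross; fun_prop
  obtain ⟨M, hM⟩ := hSc.exists_bound_of_continuousOn (f := fun p => (cross p.2.1 p.2.2)⁻¹)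
    (hcc.continuousOn.inv₀ hpos)
  refine ⟨(|M| + 1)⁻¹, by positivity, fun m v hv w hw => ?_⟩
  by_cases hv0 : v = 0
  · rw [hv0, norm_zero, mul_zero, zero_mul]; exact abs_nonneg _
  by_cases hw0 : w = 0
  · rw [hw0, norm_zero, mul_zero]; exact abs_nonneg _
  have hvn : 0 < ‖v‖ := norm_pos_iff.2 hv0
  have hwn : 0 < ‖w‖ := norm_pos_iff.2 hw0
  set v' := ‖v‖⁻¹ • v with hv'
  set w' := ‖w‖⁻¹ • w with hw'
  have hv1 : ((v', 0) : R3) ∈ E₁ (proj3 (ZZ m)) := by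
    have e : ((v', 0) : R3) = ‖v‖⁻¹ • (v, 0) := by rw [hv']; ext <;> simp
    rw [e]
    exact (E₁ _).smul_mem _ hv
  have hw1 : ((w', 0) : R3) ∈ E₂ (proj3 (ZZ m)) := by
    have e : ((w', 0) : R3) = ‖w‖⁻¹ • (w, 0) := by rw [hw']; ext <;> simp
    rw [e]
    exact (E₂ _).smul_mem _ hw
  have hin : (proj3 (ZZ m), (v', w')) ∈ S := by
    refine ⟨⟨ZZ_mem m, ?_, ?_⟩, ?_⟩
    · rw [mem_sphere_zero_iff_norm, hv', norm_smul, norm_inv, norm_norm, inv_mul_cancel₀ hvn.ne']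
    · rw [mem_sphere_zero_iff_norm, hw', norm_smul, norm_inv, norm_norm, inv_mul_cancel₀ hwn.ne']
    · show φ _ = 0
      rw [hφ]
      simp only
      rw [(hP _ (ZZ_mem m)).2 _ hv1, (hQ _ (ZZ_mem m)).2 _ hw1, sub_self, sub_self]
      rfl
  have h1 := hM _ hin
  have h2 := hpos _ hin
  simp only at h1 h2
  rw [norm_inv, Real.norm_eq_abs] at h1
  have h3 : (|M| + 1)⁻¹ ≤ |cross v' w'| := by
    rw [inv_le_comm₀ (by positivity) (abs_pos.2 h2)]
    have := le_abs_self M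
    linarith
  have h4 : cross v w = ‖v‖ * ‖w‖ * cross v' w' := by
    rw [hv', hw']
    unfold cross
    simp only [Prod.smul_fst, Prod.smul_snd, smul_eq_mul]
    field_simp
  rw [h4, abs_mul, abs_of_pos (mul_pos hvn hwn)]
  calc (|M| + 1)⁻¹ * ‖v‖ * ‖w‖ = ‖v‖ * ‖w‖ * (|M| + 1)⁻¹ := by ring
    _ ≤ ‖v‖ * ‖w‖ * |cross v' w'| := by gcongr

omit h in
lemma dom_scaled {C lam : ℝ} (hd : DominatedWith F3 La E₁ E₂ C lam) {m : ℤ} {v w : Plane}
    (hv : v ∈ Tr E₁ m) (hw : w ∈ Tr E₂ m) (n : ℕ) :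
    ‖fderiv ℝ FF^[n] (XX m) v‖ * ‖w‖ ≤ C * lam ^ n * ‖fderiv ℝ FF^[n] (XX m) w‖ * ‖v‖ := by
  by_cases hv0 : v = 0
  · rw [hv0, map_zero, norm_zero, mul_zero, zero_mul]
  by_cases hw0 : w = 0
  · rw [hw0, map_zero, norm_zero, mul_zero, mul_zero, zero_mul]
  have hvn : 0 < ‖v‖ := norm_pos_iff.2 hv0
  have hwn : 0 < ‖w‖ := norm_pos_iff.2 hw0
  have hv1 : ((‖v‖⁻¹ • v, 0) : R3) ∈ E₁ (proj3 (ZZ m)) := by
    have e : ((‖v‖⁻¹ • v, 0) : R3) = ‖v‖⁻¹ • (v, 0) := by ext <;> simp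
    rw [e]
    exact (E₁ _).smul_mem _ hv
  have hw1 : ((‖w‖⁻¹ • w, 0) : R3) ∈ E₂ (proj3 (ZZ m)) := by
    have e : ((‖w‖⁻¹ • w, 0) : R3) = ‖w‖⁻¹ • (w, 0) := by ext <;> simp
    rw [e]
    exact (E₂ _).smul_mem _ hw
  have h1 := hd (ZZ m) (ZZ_mem m) n _ hv1 _ hw1
    (by rw [norm_prod_zero, norm_smul, norm_inv, norm_norm, inv_mul_cancel₀ hvn.ne'])
    (by rw [norm_prod_zero, norm_smul, norm_inv, norm_norm, inv_mul_cancel₀ hwn.ne'])
  rw [fderiv_inl, fderiv_inl, norm_prod_zero, norm_prod_zero] at h1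
  have e : (ZZ m).1 = XX m := rfl
  rw [e, map_smul, map_smul, norm_smul, norm_smul, norm_inv, norm_inv, norm_norm, norm_norm] at h1
  have h2 := mul_le_mul_of_nonneg_left h1 (mul_pos hvn hwn).le
  have e1 : ‖v‖ * ‖w‖ * (‖v‖⁻¹ * ‖fderiv ℝ FF^[n] (XX m) v‖) = ‖fderiv ℝ FF^[n] (XX m) v‖ * ‖w‖ := by
    field_simp
  have e2 : ‖v‖ * ‖w‖ * (C * lam ^ n * (‖w‖⁻¹ * ‖fderiv ℝ FF^[n] (XX m) w‖)) =
      C * lam ^ n * ‖fderiv ℝ FF^[n] (XX m) w‖ * ‖v‖ := by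
    field_simp
  rw [e1, e2] at h2
  exact h2

lemma tt_mem {C lam : ℝ} (hl0 : 0 < lam) (hl1 : lam < 1)
    (hd : DominatedWith F3 La E₁ E₂ C lam) (m : ℤ) : tt m ∈ Tr E₁ m := by
  obtain ⟨c, hc, hang⟩ := angle h
  obtain ⟨a, ha, b, hb, hab⟩ := tr_decomp h m (tt m)
  by_cases hb0 : b = 0
  · rw [hb0, add_zero] at hab
    rw [← hab]; exact ha
  exfalso
  obtain ⟨e, he, he0⟩ := tr_ne h.ne₁ (le1 h) m
  have hbn : 0 < ‖b‖ := norm_pos_iff.2 hb0
  have hen : 0 < ‖e‖ := norm_pos_iff.2 he0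
  set K : ℝ := 1 + 2 / c with hK
  have hK0 : 0 < K := by positivity
  -- the second component stays bounded
  have hbd : ∀ n : ℕ, ‖fderiv ℝ FF^[n] (XX m) b‖ ≤ K := by
    intro n
    set a' := fderiv ℝ FF^[n] (XX m) a with ha'
    set b' := fderiv ℝ FF^[n] (XX m) b with hb'
    have h1 : a' + b' = tt (m + n) := by
      rw [ha', hb', ← map_add, hab, fderiv_iter_tt]
    have h2 : a' ∈ Tr E₁ (m + n) := tr_fwd_iter h.inv₁ n ha
    have h3 : b' ∈ Tr E₂ (m + n) := tr_fwd_iter h.inv₂ n hb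
    have h4 := hang _ _ h2 _ h3
    have h5 : cross a' b' = cross (tt (m + n)) b' := by
      rw [← h1]; unfold cross; simp only [Prod.fst_add, Prod.snd_add]; ring
    rw [h5] at h4
    have h6 := abs_cross_le (tt (m + n)) b'
    have h7 := norm_tt_le (m + n)
    rcases eq_or_lt_of_le (norm_nonneg b') with h8 | h8
    · rw [← h8]; exact hK0.le
    have h9 : c * ‖a'‖ * ‖b'‖ ≤ 2 * ‖b'‖ := by
      calc c * ‖a'‖ * ‖b'‖ ≤ 2 * ‖tt (m + n)‖ * ‖b'‖ := h4.trans h6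
        _ ≤ 2 * 1 * ‖b'‖ := by gcongr
        _ = 2 * ‖b'‖ := by ring
    have h10 : c * ‖a'‖ ≤ 2 := le_of_mul_le_mul_right h9 h8
    have h11 : ‖a'‖ ≤ 2 / c := by rw [le_div_iff₀ hc]; linarith
    have h12 : b' = tt (m + n) - a' := by rw [← h1]; abel
    calc ‖b'‖ = ‖tt (m + n) - a'‖ := by rw [← h12]
      _ ≤ ‖tt (m + n)‖ + ‖a'‖ := norm_sub_le _ _
      _ ≤ K := by rw [hK]; linarith
  have hC0 : 0 ≤ C := by
    by_contra hC
    push Not at hC
    have := dom_scaled hd he hb 0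
    simp only [iterate_zero, pow_zero, mul_one] at this
    rw [fderiv_id] at this
    simp only [ContinuousLinearMap.id_apply] at this
    have h1 : 0 < ‖e‖ * ‖b‖ := mul_pos hen hbn
    nlinarith
  have hlim : ∀ n : ℕ, c * ‖e‖ * ‖b‖ ≤ lam ^ n * (2 * C * K * K * ‖e‖ / ‖b‖) := by
    intro n
    have h1 := hang m e he b hb
    have h2 := cross_iter n m e b
    have h3 := abs_cross_le (fderiv ℝ FF^[n] (XX m) e) (fderiv ℝ FF^[n] (XX m) b)
    rw [h2] at h3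
    have h4 := dom_scaled hd he hb n
    have h5 := hbd n
    have hln : 0 ≤ lam ^ n := (pow_pos hl0 n).le
    have h6 : ‖fderiv ℝ FF^[n] (XX m) e‖ ≤ C * lam ^ n * K * ‖e‖ / ‖b‖ := by
      rw [le_div_iff₀ hbn]
      refine h4.trans ?_
      gcongr
    calc c * ‖e‖ * ‖b‖ ≤ 2 * ‖fderiv ℝ FF^[n] (XX m) e‖ * ‖fderiv ℝ FF^[n] (XX m) b‖ := h1.trans h3
      _ ≤ 2 * (C * lam ^ n * K * ‖e‖ / ‖b‖) * K := by gcongr
      _ = lam ^ n * (2 * C * K * K * ‖e‖ / ‖b‖) := by ring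
  have ht : Tendsto (fun n : ℕ => lam ^ n * (2 * C * K * K * ‖e‖ / ‖b‖)) atTop
      (𝓝 (0 * (2 * C * K * K * ‖e‖ / ‖b‖))) :=
    (tendsto_pow_atTop_nhds_zero_of_lt_one hl0.le hl1).mul_const _
  rw [zero_mul] at ht
  have := ge_of_tendsto' ht hlim
  have hpos : 0 < c * ‖e‖ * ‖b‖ := by positivity
  linarith

theorem no_dom {C lam : ℝ} (hl0 : 0 < lam) (hl1 : lam < 1)
    (hd : DominatedWith F3 La E₁ E₂ C lam) : False := by
  obtain ⟨c, hc, hang⟩ := angle h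
  obtain ⟨e, he, he0⟩ := tr_ne h.ne₂ (le2 h) 0
  have hen : 0 < ‖e‖ := norm_pos_iff.2 he0
  have ht0 := tt_mem h hl0 hl1 hd 0
  have htn : 0 < ‖tt 0‖ := norm_pos_iff.2 (tt_ne 0)
  have hC0 : 0 ≤ C := by
    by_contra hC
    push Not at hC
    have := dom_scaled hd ht0 he 0
    simp only [iterate_zero, pow_zero, mul_one] at this
    rw [fderiv_id] at this
    simp only [ContinuousLinearMap.id_apply] at this
    have h1 : 0 < ‖tt 0‖ * ‖e‖ := mul_pos htn hen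
    nlinarith
  set δ := c * ‖tt 0‖ * ‖e‖ with hδ
  have hδ0 : 0 < δ := by positivity
  have hlim : ∀ n : ℕ, ‖tt 0‖ * (δ / 2) ≤ lam ^ n * (C * ‖e‖) := by
    intro n
    have hm : (-(n : ℤ)) + n = 0 := by ring
    have he' : e ∈ Tr E₂ (-(n : ℤ) + n) := by rw [hm]; exact he
    obtain ⟨w, hw, hwe⟩ := tr_bwd_iter h.inv₂ (le2 h) n he'
    have htm := tt_mem h hl0 hl1 hd (-(n : ℤ))
    have h1 := dom_scaled hd htm hw n
    rw [hwe, fderiv_iter_tt, hm] at h1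
    have h2 := cross_iter n (-(n : ℤ)) (tt (-(n : ℤ))) w
    rw [hwe, fderiv_iter_tt, hm] at h2
    have h3 := hang 0 _ ht0 e he
    rw [h2] at h3
    have h4 := abs_cross_le (tt (-(n : ℤ))) w
    have h5 := norm_tt_le (-(n : ℤ))
    have h6 : δ / 2 ≤ ‖w‖ := by
      have : δ ≤ 2 * 1 * ‖w‖ := by
        calc δ ≤ 2 * ‖tt (-(n : ℤ))‖ * ‖w‖ := h3.trans h4
          _ ≤ 2 * 1 * ‖w‖ := by gcongr
      linarith
    have hln : 0 ≤ lam ^ n := (pow_pos hl0 n).le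
    calc ‖tt 0‖ * (δ / 2) ≤ ‖tt 0‖ * ‖w‖ := by gcongr
      _ ≤ C * lam ^ n * ‖e‖ * ‖tt (-(n : ℤ))‖ := h1
      _ ≤ C * lam ^ n * ‖e‖ * 1 := by gcongr
      _ = lam ^ n * (C * ‖e‖) := by ring
  have ht : Tendsto (fun n : ℕ => lam ^ n * (C * ‖e‖)) atTop (𝓝 (0 * (C * ‖e‖))) :=
    (tendsto_pow_atTop_nhds_zero_of_lt_one hl0.le hl1).mul_const _
  rw [zero_mul] at ht
  have := ge_of_tendsto' ht hlim
  have hpos : 0 < ‖tt 0‖ * (δ / 2) := by positivity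
  linarith

end

theorem no_subsplitting : ¬ HasDominatedSubsplitting f3 F3 La Ecu := by
  rintro ⟨E₁, E₂, h, C, lam, _, hl0, hl1, hd⟩
  exact no_dom h hl0 hl1 hd

end Pool.Agent.R191.Ext
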