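import Pool.Agent.R191.TorusDiffeo

/-!
# A family of north-south diffeomorphisms of the circle
-/

set_option autoImplicit false

open Set Filter Topology MeasureTheory Function
open scoped ContDiff

namespace Pool.Agent.R191.Ext

open Real

/-- The lift `s ↦ s - (α / 2π) sin 2πs`. -/
noncomputable def HH (α s : ℝ) : ℝ := s - α / (2 * π) * sin (2 * π * s)

variable {α : ℝ}

lemma HH_hasDeriv (α s : ℝ) : HasDerivAt (HH α) (1 - α * cos (2 * π * s)) s := by
  have h1 : HasDerivAt (fun s : ℝ => 2 * π * s) (2 * π) s := by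
    simpa using (hasDerivAt_id s).const_mul (2 * π)
  have h2 := (h1.sin).const_mul (α / (2 * π))
  have h3 := (hasDerivAt_id s).sub h2
  have e : 1 - α * cos (2 * π * s) = 1 - α / (2 * π) * (cos (2 * π * s) * (2 * π)) := by
    have := Real.pi_pos.ne'
    field_simp
  rw [e]
  exact h3

lemma HH_deriv_pos (h0 : 0 < α) (h1 : α < 1) (s : ℝ) : 0 < 1 - α * cos (2 * π * s) := by
  have := cos_le_one (2 * π * s)
  nlinarith

lemma HH_mono (h0 : 0 < α) (h1 : α < 1) : StrictMono (HH α) :=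
  strictMono_of_hasDerivAt_pos (HH_hasDeriv α) (HH_deriv_pos h0 h1)

lemma HH_contDiff (α : ℝ) : ContDiff ℝ ∞ (HH α) := by
  unfold HH
  exact contDiff_id.sub (contDiff_const.mul (Real.contDiff_sin.comp (contDiff_const.mul contDiff_id)))

lemma HH_add_one (α s : ℝ) : HH α (s + 1) = HH α s + 1 := by
  unfold HH
  rw [show 2 * π * (s + 1) = 2 * π * s + 2 * π by ring, sin_add_two_pi]
  ring

lemma HH_add_int (α s : ℝ) (m : ℤ) : HH α (s + m) = HH α s + m := by
  unfold HH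
  rw [show 2 * π * (s + m) = 2 * π * s + m * (2 * π) by ring, sin_add_int_mul_two_pi]
  ring

lemma HH_zero (α : ℝ) : HH α 0 = 0 := by unfold HH; simp

lemma HH_near (h0 : 0 < α) (h1 : α < 1) (s : ℝ) : |HH α s - s| ≤ 1 := by
  unfold HH
  have e : s - α / (2 * π) * sin (2 * π * s) - s = -(α / (2 * π) * sin (2 * π * s)) := by ring
  rw [e, abs_neg, abs_mul]
  have h2 := abs_sin_le_one (2 * π * s)
  have h3 : |α / (2 * π)| ≤ 1 := by
    rw [abs_of_pos (by positivity), div_le_one (by positivity)]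
    have := Real.pi_gt_three
    linarith
  have := abs_nonneg (α / (2 * π))
  nlinarith

lemma HH_surj (h0 : 0 < α) (h1 : α < 1) : Surjective (HH α) := by
  apply (HH_contDiff α).continuous.surjective
  · refine tendsto_atTop_mono (fun s => ?_) (tendsto_atTop_add_const_right atTop (-1 : ℝ) tendsto_id)
    have := abs_le.1 (HH_near h0 h1 s)
    simp only [id]
    linarith [this.1]
  · refine tendsto_atBot_mono (fun s => ?_) (tendsto_atBot_add_const_right atBot (1 : ℝ) tendsto_id)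
    have := abs_le.1 (HH_near h0 h1 s)
    simp only [id]
    linarith [this.2]

/-- The lift as a homeomorphism. -/
noncomputable def Hh (h0 : 0 < α) (h1 : α < 1) : ℝ ≃ₜ ℝ :=
  ((HH_mono h0 h1).orderIsoOfSurjective (HH α) (HH_surj h0 h1)).toHomeomorph

lemma Hh_apply (h0 : 0 < α) (h1 : α < 1) (s : ℝ) : Hh h0 h1 s = HH α s := rfl

lemma Hh_symm_contDiff (h0 : 0 < α) (h1 : α < 1) : ContDiff ℝ ∞ (Hh h0 h1).symm :=
  Homeomorph.contDiff_symm_deriv (f := Hh h0 h1) (f' := fun s => 1 - α * cos (2 * π * s))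
    (fun s => (HH_deriv_pos h0 h1 s).ne') (fun s => HH_hasDeriv α s) (HH_contDiff α)

lemma Hh_symm_add_int (h0 : 0 < α) (h1 : α < 1) (s : ℝ) (m : ℤ) :
    (Hh h0 h1).symm (s + m) = (Hh h0 h1).symm s + m := by
  apply (Hh h0 h1).injective
  rw [(Hh h0 h1).apply_symm_apply, Hh_apply, HH_add_int, ← Hh_apply h0 h1,
    (Hh h0 h1).apply_symm_apply]

/-- The covering map of the circle. -/
def pc (s : ℝ) : UnitAddCircle := (s : UnitAddCircle)

lemma pc_surj : Surjective pc := QuotientAddGroup.mk_surjective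

lemma pc_oqm : IsOpenQuotientMap pc := QuotientAddGroup.isOpenQuotientMap_mk

lemma pc_eq {a b : ℝ} : pc a = pc b ↔ ∃ m : ℤ, b = a + m := by
  unfold pc
  rw [eq_comm, ← sub_eq_zero, ← AddCircle.coe_sub, AddCircle.coe_eq_zero_iff]
  constructor
  · rintro ⟨n, hn⟩
    refine ⟨n, ?_⟩
    simp only [zsmul_eq_mul, mul_one] at hn
    linarith
  · rintro ⟨n, hn⟩
    refine ⟨n, ?_⟩
    simp only [zsmul_eq_mul, mul_one]
    linarith

/-- The descent of an equivariant map. -/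
noncomputable def dc (H : ℝ → ℝ) (w : UnitAddCircle) : UnitAddCircle := pc (H (surjInv pc_surj w))

lemma dc_pc {H : ℝ → ℝ} (h : ∀ s (m : ℤ), H (s + m) = H s + m) (s : ℝ) : dc H (pc s) = pc (H s) := by
  unfold dc
  obtain ⟨m, hm⟩ := pc_eq.1 (surjInv_eq pc_surj (pc s))
  conv_rhs => rw [hm, h]
  exact pc_eq.2 ⟨m, rfl⟩

lemma dc_cont {H : ℝ → ℝ} (hH : Continuous H) (h : ∀ s (m : ℤ), H (s + m) = H s + m) :
    Continuous (dc H) := by
  rw [pc_oqm.isQuotientMap.continuous_iff]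
  have : dc H ∘ pc = pc ∘ H := funext fun z => dc_pc h z
  rw [this]
  exact pc_oqm.continuous.comp hH

/-- The diffeomorphism of the circle. -/
noncomputable def hc (h0 : 0 < α) (h1 : α < 1) : UnitAddCircle ≃ₜ UnitAddCircle where
  toFun := dc (HH α)
  invFun := dc (Hh h0 h1).symm
  left_inv := by
    intro w
    obtain ⟨z, rfl⟩ := pc_surj w
    rw [dc_pc (HH_add_int α), dc_pc (Hh_symm_add_int h0 h1), ← Hh_apply h0 h1,
      (Hh h0 h1).symm_apply_apply]
  right_inv := by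
    intro w
    obtain ⟨z, rfl⟩ := pc_surj w
    rw [dc_pc (Hh_symm_add_int h0 h1), dc_pc (HH_add_int α), ← Hh_apply h0 h1,
      (Hh h0 h1).apply_symm_apply]
  continuous_toFun := dc_cont (HH_contDiff α).continuous (HH_add_int α)
  continuous_invFun := dc_cont (Hh h0 h1).symm.continuous (Hh_symm_add_int h0 h1)

lemma hc_pc (h0 : 0 < α) (h1 : α < 1) (s : ℝ) : hc h0 h1 (pc s) = pc (HH α s) :=
  dc_pc (HH_add_int α) s

lemma hc_symm_pc (h0 : 0 < α) (h1 : α < 1) (s : ℝ) : (hc h0 h1).symm (pc s) = pc ((Hh h0 h1).symm s) :=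
  dc_pc (Hh_symm_add_int h0 h1) s

lemma norm_pc {s : ℝ} (h : |s| ≤ 1 / 2) : ‖pc s‖ = |s| := by
  unfold pc
  rw [AddCircle.norm_coe_eq_abs_iff 1 one_ne_zero]
  simpa using h

lemma exists_rep (w : UnitAddCircle) : ∃ s : ℝ, pc s = w ∧ |s| ≤ 1 / 2 := by
  obtain ⟨t, rfl⟩ := pc_surj w
  refine ⟨t - round t, ?_, abs_sub_round t⟩
  exact pc_eq.2 ⟨round t, by ring⟩

/-- `0 ≤ H s ≤ s` on `[0, 1/2]`. -/
lemma HH_pos_le (h0 : 0 < α) (h1 : α < 1) {s : ℝ} (hs : 0 ≤ s) (hs2 : s ≤ 1 / 2) :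
    0 ≤ HH α s ∧ HH α s ≤ s := by
  constructor
  · rw [← HH_zero α]; exact (HH_mono h0 h1).monotone hs
  · unfold HH
    have : 0 ≤ sin (2 * π * s) := sin_nonneg_of_nonneg_of_le_pi (by positivity) (by nlinarith [Real.pi_pos])
    have : 0 ≤ α / (2 * π) * sin (2 * π * s) := by positivity
    linarith

lemma HH_neg (α s : ℝ) : HH α (-s) = -HH α s := by
  unfold HH
  rw [show 2 * π * -s = -(2 * π * s) by ring, sin_neg]
  ring

lemma abs_HH_le (h0 : 0 < α) (h1 : α < 1) {s : ℝ} (hs : |s| ≤ 1 / 2) : |HH α s| ≤ |s| := by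
  rcases le_total 0 s with h | h
  · rw [abs_of_nonneg h] at hs ⊢
    have := HH_pos_le h0 h1 h hs
    rw [abs_of_nonneg this.1]; exact this.2
  · rw [abs_of_nonpos h] at hs ⊢
    have := HH_pos_le h0 h1 (by linarith : 0 ≤ -s) hs
    rw [HH_neg] at this
    rw [abs_of_nonpos (by linarith [this.1])]; exact this.2

lemma HH_lt (h0 : 0 < α) {s : ℝ} (hs : 0 < s) (hs2 : s < 1 / 2) : HH α s < s := by
  unfold HH
  have : 0 < sin (2 * π * s) := sin_pos_of_pos_of_lt_pi (by positivity) (by nlinarith [Real.pi_pos])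
  have : 0 < α / (2 * π) * sin (2 * π * s) := by positivity
  linarith

lemma abs_HH_lt (h0 : 0 < α) (h1 : α < 1) {s : ℝ} (hs0 : s ≠ 0) (hs : |s| < 1 / 2) :
    |HH α s| < |s| := by
  rcases lt_or_gt_of_ne hs0 with h | h
  · rw [abs_of_neg h] at hs ⊢
    have h2 := (HH_pos_le h0 h1 (by linarith : 0 ≤ -s) hs.le).1
    have := HH_lt (α := α) h0 (by linarith : 0 < -s) hs
    rw [HH_neg] at this h2
    rw [abs_of_nonpos (by linarith)]; exact this
  · rw [abs_of_pos h] at hs ⊢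
    have h2 := (HH_pos_le h0 h1 h.le hs.le).1
    rw [abs_of_nonneg h2]; exact HH_lt h0 h hs

/-- Uniform contraction on `|s| ≤ 1/4`. -/
lemma abs_HH_contr (h0 : 0 < α) (h1 : α < 1) {s : ℝ} (hs : |s| ≤ 1 / 4) :
    |HH α s| ≤ (1 - 2 * α / π) * |s| := by
  have key : ∀ s : ℝ, 0 ≤ s → s ≤ 1 / 4 → HH α s ≤ (1 - 2 * α / π) * s := by
    intro s h hs
    unfold HH
    have h2 := Real.mul_le_sin (x := 2 * π * s) (by positivity) (by nlinarith [Real.pi_pos])
    have e : 2 / π * (2 * π * s) = 4 * s := by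
      have := Real.pi_pos.ne'
      field_simp
      ring
    rw [e] at h2
    have h3 : α / (2 * π) * (4 * s) ≤ α / (2 * π) * sin (2 * π * s) := by gcongr
    have e2 : α / (2 * π) * (4 * s) = 2 * α / π * s := by
      have := Real.pi_pos.ne'
      field_simp
      ring
    rw [e2] at h3
    linarith
  rcases le_total 0 s with h | h
  · rw [abs_of_nonneg h] at hs ⊢
    have := HH_pos_le h0 h1 h (by linarith)
    rw [abs_of_nonneg this.1]; exact key s h hs
  · rw [abs_of_nonpos h] at hs ⊢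
    have := HH_pos_le h0 h1 (by linarith : 0 ≤ -s) (by linarith)
    have h2 := key (-s) (by linarith) hs
    rw [HH_neg] at this h2
    rw [abs_of_nonpos (by linarith [this.1])]; exact h2

lemma norm_hc_le (h0 : 0 < α) (h1 : α < 1) (w : UnitAddCircle) : ‖hc h0 h1 w‖ ≤ ‖w‖ := by
  obtain ⟨s, rfl, hs⟩ := exists_rep w
  have h := abs_HH_le h0 h1 hs
  rw [hc_pc, norm_pc hs, norm_pc (h.trans hs)]
  exact h

lemma norm_hc_contr (h0 : 0 < α) (h1 : α < 1) {w : UnitAddCircle} (hw : ‖w‖ ≤ 1 / 4) :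
    ‖hc h0 h1 w‖ ≤ (1 - 2 * α / π) * ‖w‖ := by
  obtain ⟨s, rfl, hs⟩ := exists_rep w
  have h := abs_HH_le h0 h1 hs
  rw [hc_pc, norm_pc hs, norm_pc (h.trans hs)]
  rw [norm_pc hs] at hw
  exact abs_HH_contr h0 h1 hw

lemma norm_hc_lt (h0 : 0 < α) (h1 : α < 1) {w : UnitAddCircle} (hw0 : w ≠ 0) (hw : ‖w‖ ≠ 1 / 2) :
    ‖hc h0 h1 w‖ < ‖w‖ := by
  obtain ⟨s, rfl, hs⟩ := exists_rep w
  have h := abs_HH_le h0 h1 hs
  rw [norm_pc hs] at hw
  rw [hc_pc, norm_pc hs, norm_pc (h.trans hs)]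
  apply abs_HH_lt h0 h1 _ (lt_of_le_of_ne hs hw)
  rintro rfl
  exact hw0 rfl

lemma hc_zero (h0 : 0 < α) (h1 : α < 1) : hc h0 h1 0 = 0 := by
  have := hc_pc h0 h1 0
  rw [HH_zero] at this
  exact this

end Pool.Agent.R191.Ext
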