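import Pool.Agent.TH292.MR.Defs

/-!
# Attractors of diffeomorphisms of the three-torus: definitions

Everything is stated for the flat torus `𝕋³ = ℝ³/ℤ³`, written as `𝕋² × 𝕋¹`. Diffeomorphisms are
described through their lifts to the universal cover `ℝ³ = ℝ² × ℝ`, which is also the tangent space at
every point: the derivative of `fⁿ` at the point `proj3 z` is that of the `n`-th iterate `F^[n]` of the
lift at `z`. We use the maximum norm on `ℝ³` and the induced metric on the torus; none of the notions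
below changes if it is replaced by another norm.
-/

set_option autoImplicit false

open Set Filter Topology MeasureTheory Function
open scoped ContDiff

namespace Pool.Agent.R191.Ext

open Pool.Agent.TH292.MR (Torus Plane proj)

/-- The three-torus `ℝ³/ℤ³`. -/
abbrev T3 : Type := Torus × UnitAddCircle

/-- The universal cover of the three-torus, which is also its tangent space at every point. -/
abbrev R3 : Type := Plane × ℝ

/-- The covering map `ℝ³ → ℝ³/ℤ³`. -/
def proj3 (z : R3) : T3 := (proj z.1, (z.2 : UnitAddCircle))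

/-- `f` is a `C^∞` diffeomorphism of the three-torus: `F` and `G` are `C^∞` lifts of `f` and `f⁻¹`. -/
structure IsSmoothDiffeo3 (f : T3 ≃ₜ T3) (F G : R3 → R3) : Prop where
  lift : ∀ z, f (proj3 z) = proj3 (F z)
  lift_symm : ∀ z, f.symm (proj3 z) = proj3 (G z)
  smooth : ContDiff ℝ ∞ F
  smooth_symm : ContDiff ℝ ∞ G

/-- `f` is dissipative: it preserves no finite Borel measure which is equivalent to (has the same null
sets as) the volume. -/
def IsDissipative (f : T3 ≃ₜ T3) : Prop :=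
  ∀ η : Measure T3, IsFiniteMeasure η → MeasurePreserving f η η →
    ¬ (η ≪ (volume : Measure T3) ∧ (volume : Measure T3) ≪ η)

/-- `Λ` is a compact invariant attracting set of `f`: it is the maximal invariant set
`⋂ fⁿ(U)` in an open neighbourhood `U` with `f (closure U) ⊆ U`. -/
structure IsAttracting (f : T3 ≃ₜ T3) (Λ : Set T3) : Prop where
  compact : IsCompact Λ
  inv : f '' Λ = Λ
  attr : ∃ U : Set T3, IsOpen U ∧ Λ ⊆ U ∧ f '' closure U ⊆ U ∧ ⋂ n : ℕ, f^[n] '' U = Λ

/-- `E` is a continuous subbundle of the tangent bundle over `Λ`: its fibres are the images of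
projections depending continuously on the point of `Λ`. -/
def IsContSubbundle (Λ : Set T3) (E : T3 → Submodule ℝ R3) : Prop :=
  ∃ P : T3 → R3 →L[ℝ] R3, ContinuousOn P Λ ∧
    ∀ x ∈ Λ, (∀ v, P x v ∈ E x) ∧ ∀ v ∈ E x, P x v = v

/-- `E` is `Df`-invariant over `Λ`. -/
def IsInvBundle (f : T3 ≃ₜ T3) (F : R3 → R3) (Λ : Set T3) (E : T3 → Submodule ℝ R3) : Prop :=
  ∀ z, proj3 z ∈ Λ →
    (E (proj3 z)).map (fderiv ℝ F z : R3 →ₗ[ℝ] R3) = E (f (proj3 z))

/-- `E = E₁ ⊕ E₂` is a continuous `Df`-invariant splitting over `Λ` into nontrivial subbundles. -/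
structure IsInvSplitting (f : T3 ≃ₜ T3) (F : R3 → R3) (Λ : Set T3) (E E₁ E₂ : T3 → Submodule ℝ R3) :
    Prop where
  cont₁ : IsContSubbundle Λ E₁
  cont₂ : IsContSubbundle Λ E₂
  inv₁ : IsInvBundle f F Λ E₁
  inv₂ : IsInvBundle f F Λ E₂
  ne₁ : ∀ x ∈ Λ, E₁ x ≠ ⊥
  ne₂ : ∀ x ∈ Λ, E₂ x ≠ ⊥
  disjoint : ∀ x ∈ Λ, Disjoint (E₁ x) (E₂ x)
  sup : ∀ x ∈ Λ, E₁ x ⊔ E₂ x = E x

/-- `‖Dfⁿ v‖ ≤ C λⁿ ‖Dfⁿ w‖` for all `n ≥ 0` and all unit vectors `v ∈ E₁`, `w ∈ E₂` at the same
point of `Λ`. -/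
def DominatedWith (F : R3 → R3) (Λ : Set T3) (E₁ E₂ : T3 → Submodule ℝ R3) (C lam : ℝ) : Prop :=
  ∀ z, proj3 z ∈ Λ → ∀ n : ℕ, ∀ v ∈ E₁ (proj3 z), ∀ w ∈ E₂ (proj3 z), ‖v‖ = 1 → ‖w‖ = 1 →
    ‖fderiv ℝ (F^[n]) z v‖ ≤ C * lam ^ n * ‖fderiv ℝ (F^[n]) z w‖

/-- `‖Dfⁿ v‖ ≤ C λⁿ` for all `n ≥ 0` and all unit vectors `v ∈ E` over `Λ`. -/
def ContractedWith (F : R3 → R3) (Λ : Set T3) (E : T3 → Submodule ℝ R3) (C lam : ℝ) : Prop :=
  ∀ z, proj3 z ∈ Λ → ∀ n : ℕ, ∀ v ∈ E (proj3 z), ‖v‖ = 1 → ‖fderiv ℝ (F^[n]) z v‖ ≤ C * lam ^ n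

/-- `f` has over `Λ` the stable bundle `Es` and the center-unstable bundle `Ecu`. -/
def HasStableCenterUnstable (f : T3 ≃ₜ T3) (F : R3 → R3) (Λ : Set T3)
    (Es Ecu : T3 → Submodule ℝ R3) : Prop :=
  IsInvSplitting f F Λ (fun _ => ⊤) Es Ecu ∧
    ∃ C lam : ℝ, 0 < C ∧ 0 < lam ∧ lam < 1 ∧ ContractedWith F Λ Es C lam ∧
      DominatedWith F Λ Es Ecu C lam

/-- The bundle `E` has over `Λ` a dominated subsplitting: a continuous `Df`-invariant splitting into
nontrivial subbundles of which the second dominates the first. -/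
def HasDominatedSubsplitting (f : T3 ≃ₜ T3) (F : R3 → R3) (Λ : Set T3) (E : T3 → Submodule ℝ R3) :
    Prop :=
  ∃ E₁ E₂ : T3 → Submodule ℝ R3, IsInvSplitting f F Λ E E₁ E₂ ∧
    ∃ C lam : ℝ, 0 < C ∧ 0 < lam ∧ lam < 1 ∧ DominatedWith F Λ E₁ E₂ C lam

/-- The number `χ` is the Lyapunov exponent of the tangent vector `v` at the point `proj3 z`. -/
def IsExponent (F : R3 → R3) (z v : R3) (χ : ℝ) : Prop :=
  Tendsto (fun n : ℕ => (1 / (n : ℝ)) * Real.log ‖fderiv ℝ (F^[n]) z v‖) atTop (𝓝 χ)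

/-- At `η`-almost every point `x` the two Lyapunov exponents of `f` along the two-dimensional bundle `E`
are one positive and one negative: the plane `E x` has a basis of vectors with such exponents. -/
def HasSaddleExponents (F : R3 → R3) (E : T3 → Submodule ℝ R3) (η : Measure T3) : Prop :=
  ∀ᵐ x ∂η, ∀ z, proj3 z = x → ∃ v ∈ E x, ∃ w ∈ E x, ∃ χp χm : ℝ, LinearIndependent ℝ ![v, w] ∧
    0 < χp ∧ χm < 0 ∧ IsExponent F z v χp ∧ IsExponent F z w χm

/-- The unstable manifold, as a set, of `x`: the points `y` such that the distance of `f⁻ⁿ x` and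
`f⁻ⁿ y` tends to zero exponentially fast. -/
def unstableSet3 (f : T3 ≃ₜ T3) (x : T3) : Set T3 :=
  {y | ∃ C θ : ℝ, 0 < θ ∧ θ < 1 ∧ ∀ n : ℕ, dist (f.symm^[n] x) (f.symm^[n] y) ≤ C * θ ^ n}

/-- `η` has absolutely continuous conditional measures along (one-dimensional) unstable manifolds: there
are a measurable partition, namely the partition into the fibres of a measurable map `q` to a standard
Borel space `Z`, and a system `K` of conditional probability measures of `η` on the fibres, such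
that for `η`-almost every `x` there is an injectively immersed `C^∞` curve `γ` through `x = γ 0`
whose range is the unstable manifold of `x`, the fibre of `x` is the arc `γ (a, b)` for some
`a < 0 < b`, and the conditional measure on it is absolutely continuous with respect to arc length
(equivalently, with respect to the image under `γ` of Lebesgue measure on `(a, b)`). -/
def HasACConditionals3 (f : T3 ≃ₜ T3) (η : Measure T3) : Prop :=
  ∃ (Z : Type) (_ : MeasurableSpace Z) (_ : StandardBorelSpace Z) (q : T3 → Z)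
    (K : ProbabilityTheory.Kernel Z T3),
    Measurable q ∧ ProbabilityTheory.IsMarkovKernel K ∧ (η.map q).bind K = η ∧
    ∀ᵐ x ∂η, K (q x) (q ⁻¹' {q x})ᶜ = 0 ∧
      ∃ (γ : ℝ → R3) (a b : ℝ), ContDiff ℝ ∞ γ ∧ (∀ t, deriv γ t ≠ 0) ∧
        Injective (fun t => proj3 (γ t)) ∧ proj3 (γ 0) = x ∧
        range (fun t => proj3 (γ t)) = unstableSet3 f x ∧ a < 0 ∧ 0 < b ∧
        q ⁻¹' {q x} = (fun t => proj3 (γ t)) '' Ioo a b ∧
        K (q x) ≪ (volume.restrict (Ioo a b)).map (fun t => proj3 (γ t))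

/-- `η` is an SRB measure of `f`: an ergodic `f`-invariant Borel probability measure with a positive
Lyapunov exponent and absolutely continuous conditional measures along unstable manifolds. -/
structure IsSRB (f : T3 ≃ₜ T3) (F : R3 → R3) (η : Measure T3) : Prop where
  prob : IsProbabilityMeasure η
  ergodic : Ergodic f η
  pos : ∀ᵐ x ∂η, ∀ z, proj3 z = x → ∃ (v : R3) (χ : ℝ), 0 < χ ∧ IsExponent F z v χ
  ac : HasACConditionals3 f η

end Pool.Agent.R191.Ext
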