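import Pool.Agent.TH292.MR.Main

/-!
# The invariant circle of the blown-up cat map
-/

set_option autoImplicit false

open Set Filter Topology MeasureTheory Function
open scoped ContDiff

namespace Pool.Agent.R191.Ext

open Pool.Agent.TH292.MR

/-- The cross product. -/
def cross (v w : Plane) : ℝ := v.1 * w.2 - v.2 * w.1

lemma cross_det2 (L : Plane →L[ℝ] Plane) (v w : Plane) : cross (L v) (L w) = det2 L * cross v w := by
  rw [clm_apply L v, clm_apply L w]
  unfold cross det2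
  simp only [Prod.fst_add, Prod.snd_add, Prod.smul_fst, Prod.smul_snd, smul_eq_mul]
  ring

lemma abs_cross_le (v w : Plane) : |cross v w| ≤ 2 * ‖v‖ * ‖w‖ := by
  have h1 : |v.1| ≤ ‖v‖ := norm_fst_le v
  have h2 : |v.2| ≤ ‖v‖ := norm_snd_le v
  have h3 : |w.1| ≤ ‖w‖ := norm_fst_le w
  have h4 : |w.2| ≤ ‖w‖ := norm_snd_le w
  unfold cross
  calc |v.1 * w.2 - v.2 * w.1| ≤ |v.1 * w.2| + |v.2 * w.1| := abs_sub _ _
    _ = |v.1| * |w.2| + |v.2| * |w.1| := by rw [abs_mul, abs_mul]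
    _ ≤ ‖v‖ * ‖w‖ + ‖v‖ * ‖w‖ := by gcongr
    _ = 2 * ‖v‖ * ‖w‖ := by ring

/-- Radius of the circle. -/
noncomputable def rho : ℝ := Real.sqrt (1 / 800)

lemma rho_pos : 0 < rho := Real.sqrt_pos.2 (by norm_num)
lemma rho_sq : rho ^ 2 = 1 / 800 := Real.sq_sqrt (by norm_num)

/-- The point of the circle in a given direction. -/
noncomputable def NN (u : Plane) : Plane := (rho / Real.sqrt (nq u)) • u

lemma nq_NN {u : Plane} (hu : u ≠ 0) : nq (NN u) = 1 / 800 := by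
  have h := nq_pos hu
  unfold NN
  rw [nq_smul, div_pow, rho_sq, Real.sq_sqrt h.le]
  field_simp

lemma NN_ne {u : Plane} (hu : u ≠ 0) : NN u ≠ 0 := ne_zero_of_nq (by rw [nq_NN hu]; norm_num)

lemma AL_ne {u : Plane} (hu : u ≠ 0) : AL u ≠ 0 := by
  intro h
  apply hu
  rw [← BL_AL u, h]
  unfold BL
  ext <;> simp

lemma SS_NN {u : Plane} (hu : u ≠ 0) : SS (NN u) = SS u := by
  unfold NN
  have h := nq_pos hu
  have := rho_pos
  exact SS_smul (by positivity) u

/-- Formula for the map near the circle on a ray. -/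
lemma FF_ray {u : Plane} (hu : u ≠ 0) : ∀ᶠ s : ℝ in 𝓝 1,
    FF (s • NN u) = Real.sqrt (SS u * (s ^ 2 - 1) + 1) • NN (AL u) := by
  have hS := SS_pos hu
  have hS2 := SS_lt hu
  have e1 : ∀ᶠ s : ℝ in 𝓝 1, s ∈ Ioo (0.98 : ℝ) 1.02 := Ioo_mem_nhds (by norm_num) (by norm_num)
  have e2 : ∀ᶠ s : ℝ in 𝓝 1, 0 < SS u * (s ^ 2 - 1) + 1 := by
    have hc : Continuous fun s : ℝ => SS u * (s ^ 2 - 1) + 1 := by fun_prop
    exact (hc.tendsto 1).eventually (lt_mem_nhds (by norm_num))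
  have e3 : ∀ᶠ s : ℝ in 𝓝 1, SS u * (s ^ 2 - 1) < 1 := by
    have hc : Continuous fun s : ℝ => SS u * (s ^ 2 - 1) := by fun_prop
    exact (hc.tendsto 1).eventually (gt_mem_nhds (by norm_num))
  filter_upwards [e1, e2, e3] with s hs hpos hlt
  have hs0 : 0 < s := by linarith [hs.1]
  have hs2 : 0.96 < s ^ 2 := by nlinarith [hs.1]
  have hs3 : s ^ 2 < 1.05 := by nlinarith [hs.1, hs.2]
  set z := s • NN u with hz
  have hz0 : z ≠ 0 := smul_ne_zero hs0.ne' (NN_ne hu)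
  have hq : nq z = s ^ 2 / 800 := by
    rw [hz, nq_smul, nq_NN hu]; ring
  have hSz : SS z = SS u := by rw [hz, SS_smul hs0.ne', SS_NN hu]
  have hkk : kk z = 0 := by
    have h1 : nq (z - kk 0) < 1 / 4 := by rw [kk_zero, sub_zero, hq]; linarith
    rw [kk_of_nq h1, kk_zero]
  have hk : kt (nq z) = s ^ 2 / 800 - 1 / 800 := by
    rw [kt_small (by rw [hq]; linarith), hq]
  have hC : Csq z = (SS u * (s ^ 2 - 1) + 1) / (SS u * s ^ 2) := by
    rw [Csq_ne hz0, psi_large (by rw [hq]; linarith), hSz, hk, jt_small, hq]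
    · have : s ^ 2 ≠ 0 := by positivity
      field_simp
    · have : SS u * (s ^ 2 / 800 - 1 / 800) = SS u * (s ^ 2 - 1) / 800 := by ring
      rw [this]; linarith
  have hFF : FF z = CC z • AL z := by
    unfold FF per
    rw [hkk, sub_zero, add_zero]
    unfold P0
    rw [AL_smul]
  rw [hFF]
  unfold CC
  rw [hC, hz]
  have hqu := nq_pos hu
  have hAu := AL_ne hu
  have hqA := nq_pos hAu
  have hqA' : nq (AL u) = SS u * nq u := (SS_mul hu).symm
  unfold NN
  rw [AL_smul, AL_smul, smul_smul, smul_smul, smul_smul]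
  congr 1
  rw [hqA', Real.sqrt_div hpos.le, Real.sqrt_mul hS.le, Real.sqrt_sq hs0.le, Real.sqrt_mul hS.le]
  have h1 : Real.sqrt (SS u) ≠ 0 := (Real.sqrt_pos.2 hS).ne'
  have h2 : Real.sqrt (nq u) ≠ 0 := (Real.sqrt_pos.2 hqu).ne'
  field_simp

lemma FF_NN {u : Plane} (hu : u ≠ 0) : FF (NN u) = NN (AL u) := by
  have h := (FF_ray hu).self_of_nhds
  simpa using h

lemma FF_hasFDeriv (z : Plane) : HasFDerivAt FF (fderiv ℝ FF z) z :=
  (FF_contDiff.differentiable (by simp) z).hasFDerivAt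

lemma fderiv_NN {u : Plane} (hu : u ≠ 0) : fderiv ℝ FF (NN u) (NN u) = SS u • NN (AL u) := by
  have h1 : HasDerivAt (fun t : ℝ => t • NN u) (NN u) 1 := by
    simpa using (hasDerivAt_id (1 : ℝ)).smul_const (NN u)
  have h2 : HasDerivAt (fun t : ℝ => FF (t • NN u)) (fderiv ℝ FF (NN u) (NN u)) 1 :=
    HasFDerivAt.comp_hasDerivAt_of_eq (f := fun t : ℝ => t • NN u) (1 : ℝ)
      (FF_hasFDeriv (NN u)) h1 (by simp)
  have h3 : HasDerivAt (fun s : ℝ => Real.sqrt (SS u * (s ^ 2 - 1) + 1) • NN (AL u))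
      (SS u • NN (AL u)) 1 := by
    have a1 : HasDerivAt (fun s : ℝ => SS u * (s ^ 2 - 1) + 1) (SS u * 2) 1 := by
      have := (((hasDerivAt_pow 2 (1 : ℝ)).sub_const 1).const_mul (SS u)).add_const 1
      simpa using this
    have a2 := a1.sqrt (by simp)
    have a3 := a2.smul_const (NN (AL u))
    have e : SS u * 2 / (2 * Real.sqrt (SS u * ((1 : ℝ) ^ 2 - 1) + 1)) = SS u := by
      have : SS u * ((1 : ℝ) ^ 2 - 1) + 1 = 1 := by ring
      rw [this, Real.sqrt_one]; ring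
    rw [e] at a3
    exact a3
  exact h2.unique (h3.congr_of_eventuallyEq (FF_ray hu))

/-- The rotated vector. -/
def perp (u : Plane) : Plane := (-u.2, u.1)

/-- The tangent vector. -/
noncomputable def tau (u : Plane) : Plane := (rho / Real.sqrt (nq u) ^ 3) • perp u

lemma NN_deriv {u w : Plane} (hu : u ≠ 0) (h : cross u w = 1) :
    HasDerivAt (fun t : ℝ => NN (u + t • w)) (tau u) 0 := by
  have hq := nq_pos hu
  have hsq : Real.sqrt (nq u) ≠ 0 := (Real.sqrt_pos.2 hq).ne'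
  have hs2 : Real.sqrt (nq u) ^ 2 = nq u := Real.sq_sqrt hq.le
  have h1 : HasDerivAt (fun t : ℝ => u + t • w) w 0 := by
    simpa using ((hasDerivAt_id (0 : ℝ)).smul_const w).const_add u
  have h2 : HasDerivAt (fun t : ℝ => nq (u + t • w)) (dnq u w) 0 :=
    HasFDerivAt.comp_hasDerivAt_of_eq (0 : ℝ) (nq_hasFDeriv u) h1 (by simp)
  have h0 : nq (u + (0 : ℝ) • w) = nq u := by simp
  have h3 := h2.sqrt (by rw [h0]; exact hq.ne')
  have h4 : HasDerivAt (fun t : ℝ => rho * (Real.sqrt (nq (u + t • w)))⁻¹)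
      (rho * (-(dnq u w / (2 * Real.sqrt (nq u))) / Real.sqrt (nq u) ^ 2)) 0 := by
    have := (h3.fun_inv (by rw [h0]; exact hsq)).const_mul rho
    rw [h0] at this
    exact this
  have h5 := h4.fun_smul h1
  have e : (fun t : ℝ => NN (u + t • w)) =
      fun t : ℝ => (rho * (Real.sqrt (nq (u + t • w)))⁻¹) • (u + t • w) := by
    funext t
    unfold NN
    rw [div_eq_mul_inv]
  rw [e]
  refine h5.congr_deriv ?_
  simp only [zero_smul, add_zero]
  rw [dnq_apply]
  unfold tau perp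
  unfold cross at h
  ext
  · simp only [Prod.fst_add, Prod.smul_fst, smul_eq_mul]
    field_simp
    rw [hs2]
    unfold nq
    linear_combination (-rho * u.2) * h
  · simp only [Prod.snd_add, Prod.smul_snd, smul_eq_mul]
    field_simp
    rw [hs2]
    unfold nq
    linear_combination (rho * u.1) * h

lemma cross_AL (v w : Plane) : cross (AL v) (AL w) = cross v w := by
  unfold cross AL; simp only; ring

lemma AL_add (v w : Plane) : AL (v + w) = AL v + AL w := by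
  unfold AL
  ext <;> simp only [Prod.fst_add, Prod.snd_add] <;> ring

lemma fderiv_tau {u : Plane} (hu : u ≠ 0) : fderiv ℝ FF (NN u) (tau u) = tau (AL u) := by
  have hq := nq_pos hu
  obtain ⟨w, hw⟩ : ∃ w, cross u w = 1 := by
    refine ⟨(nq u)⁻¹ • perp u, ?_⟩
    unfold cross perp
    simp only [Prod.smul_fst, Prod.smul_snd, smul_eq_mul]
    have : u.1 * ((nq u)⁻¹ * u.1) - u.2 * ((nq u)⁻¹ * -u.2) = (nq u)⁻¹ * nq u := by
      unfold nq; ring
    rw [this, inv_mul_cancel₀ hq.ne']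
  have h1 := NN_deriv hu hw
  have h2 : HasDerivAt (fun t : ℝ => FF (NN (u + t • w))) (fderiv ℝ FF (NN u) (tau u)) 0 :=
    HasFDerivAt.comp_hasDerivAt_of_eq (f := fun t : ℝ => NN (u + t • w)) (0 : ℝ)
      (FF_hasFDeriv (NN u)) h1 (by simp)
  have h3 := NN_deriv (AL_ne hu) (w := AL w) (by rw [cross_AL, hw])
  have h4 : (fun t : ℝ => FF (NN (u + t • w))) =ᶠ[𝓝 0] fun t => NN (AL u + t • AL w) := by
    have hc : Continuous fun t : ℝ => u + t • w := by fun_prop
    have : ∀ᶠ t : ℝ in 𝓝 0, u + t • w ≠ 0 :=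
      (hc.tendsto 0).eventually (isOpen_ne.mem_nhds (by simpa using hu))
    filter_upwards [this] with t ht
    rw [FF_NN ht, AL_add, AL_smul]
  exact h2.unique (h3.congr_of_eventuallyEq h4)

lemma cross_NN_tau {u : Plane} (hu : u ≠ 0) : cross (nq u • NN u) (tau u) = 1 / 800 := by
  have hq := nq_pos hu
  have hsq : Real.sqrt (nq u) ≠ 0 := (Real.sqrt_pos.2 hq).ne'
  have hs2 : Real.sqrt (nq u) ^ 2 = nq u := Real.sq_sqrt hq.le
  rw [← rho_sq]
  unfold cross NN tau perp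
  simp only [Prod.smul_fst, Prod.smul_snd, smul_eq_mul]
  have hs4 : Real.sqrt (nq u) ^ 4 = nq u ^ 2 := by
    rw [show (4 : ℕ) = 2 * 2 from rfl, pow_mul, hs2]
  have e : nq u * (rho / Real.sqrt (nq u) * u.1) * (rho / Real.sqrt (nq u) ^ 3 * u.1) -
      nq u * (rho / Real.sqrt (nq u) * u.2) * (rho / Real.sqrt (nq u) ^ 3 * -u.2) =
      rho ^ 2 * nq u * (u.1 ^ 2 + u.2 ^ 2) / Real.sqrt (nq u) ^ 4 := by
    field_simp
    ring
  rw [e, hs4]
  have : u.1 ^ 2 + u.2 ^ 2 = nq u := rfl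
  rw [this]
  field_simp

lemma det2_FF_NN {u : Plane} (hu : u ≠ 0) : det2 (fderiv ℝ FF (NN u)) = 1 := by
  have h := cross_det2 (fderiv ℝ FF (NN u)) (nq u • NN u) (tau u)
  rw [map_smul, fderiv_NN hu, fderiv_tau hu, cross_NN_tau hu, smul_smul] at h
  have e : nq u * SS u = nq (AL u) := by
    rw [mul_comm, SS_mul hu]; rfl
  rw [e, cross_NN_tau (AL_ne hu)] at h
  linarith

lemma norm_tau_le {u : Plane} (h : 1 ≤ nq u) : ‖tau u‖ ≤ 1 := by
  have hs : 1 ≤ Real.sqrt (nq u) := Real.one_le_sqrt.2 h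
  have hs2 : Real.sqrt (nq u) ^ 2 = nq u := Real.sq_sqrt (by linarith)
  unfold tau
  rw [norm_smul]
  have h1 : ‖perp u‖ ≤ Real.sqrt (nq u) := by
    have e : nq (perp u) = nq u := by unfold nq perp; simp only; ring
    rw [← e]; exact norm_le_sqrt _
  have h2 : ‖rho / Real.sqrt (nq u) ^ 3‖ = rho / Real.sqrt (nq u) ^ 3 := by
    rw [Real.norm_eq_abs, abs_of_pos]
    have := rho_pos
    positivity
  rw [h2]
  have hr : rho ≤ 1 := by
    unfold rho
    rw [show (1 : ℝ) = Real.sqrt 1 by simp]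
    exact Real.sqrt_le_sqrt (by norm_num)
  have hr0 := rho_pos
  calc rho / Real.sqrt (nq u) ^ 3 * ‖perp u‖ ≤ rho / Real.sqrt (nq u) ^ 3 * Real.sqrt (nq u) := by
        gcongr
    _ = rho / Real.sqrt (nq u) ^ 2 := by
        field_simp
    _ ≤ 1 := by
        rw [hs2, div_le_one (by linarith)]
        linarith

lemma tau_ne {u : Plane} (hu : u ≠ 0) : tau u ≠ 0 := by
  intro h
  have := cross_NN_tau hu
  rw [h] at this
  unfold cross at this
  simp at this

/-- The linear map as a permutation. -/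
def ALe : Equiv.Perm Plane := ⟨AL, BL, BL_AL, AL_BL⟩

/-- The orbit of directions. -/
def uu (m : ℤ) : Plane := (ALe ^ m) (1, 0)

lemma uu_succ (m : ℤ) : uu (m + 1) = AL (uu m) := by
  unfold uu
  rw [add_comm, zpow_add, zpow_one]
  rfl

lemma uu_int (m : ℤ) : ∃ a b : ℤ, uu m = ((a : ℝ), (b : ℝ)) ∧ uu m ≠ 0 := by
  induction m using Int.induction_on with
  | zero =>
    refine ⟨1, 0, by simp [uu], ?_⟩
    intro h
    have := congrArg Prod.fst h
    simp [uu] at this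
  | succ n ih =>
    obtain ⟨a, b, h, h0⟩ := ih
    refine ⟨2 * a + b, a + b, ?_, ?_⟩
    · rw [uu_succ, h]; unfold AL; push_cast; rfl
    · rw [uu_succ]; exact AL_ne h0
  | pred n ih =>
    obtain ⟨a, b, h, h0⟩ := ih
    have e : AL (uu (-(n : ℤ) - 1)) = uu (-(n : ℤ)) := by
      rw [← uu_succ]; congr 1; ring
    have e2 : uu (-(n : ℤ) - 1) = BL (uu (-(n : ℤ))) := by rw [← e, BL_AL]
    refine ⟨a - b, -a + 2 * b, ?_, ?_⟩
    · rw [e2, h]; unfold BL; push_cast; rfl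
    · intro hc
      apply h0
      rw [← e, hc]
      unfold AL
      ext <;> simp

lemma uu_ne (m : ℤ) : uu m ≠ 0 := (uu_int m).choose_spec.choose_spec.2

lemma one_le_nq (m : ℤ) : 1 ≤ nq (uu m) := by
  obtain ⟨a, b, h, h0⟩ := uu_int m
  have h1 := nq_pos h0
  rw [h] at h1 ⊢
  unfold nq at h1 ⊢
  simp only at h1 ⊢
  have h2 : (0 : ℤ) < a ^ 2 + b ^ 2 := by exact_mod_cast h1
  have h3 : (1 : ℤ) ≤ a ^ 2 + b ^ 2 := h2
  exact_mod_cast h3

/-- The orbit on the circle. -/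
noncomputable def XX (m : ℤ) : Plane := NN (uu m)
/-- The tangent vectors along the orbit. -/
noncomputable def tt (m : ℤ) : Plane := tau (uu m)

lemma FF_XX (m : ℤ) : FF (XX m) = XX (m + 1) := by
  unfold XX; rw [FF_NN (uu_ne m), uu_succ]

lemma norm_tt_le (m : ℤ) : ‖tt m‖ ≤ 1 := norm_tau_le (one_le_nq m)
lemma tt_ne (m : ℤ) : tt m ≠ 0 := tau_ne (uu_ne m)

lemma FF_iter_XX (n : ℕ) (m : ℤ) : FF^[n] (XX m) = XX (m + n) := by
  induction n with
  | zero => simp
  | succ n ih => rw [iterate_succ_apply', ih, FF_XX]; congr 1; push_cast; ring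

lemma FF_iter_hasFDeriv (n : ℕ) (z : Plane) : HasFDerivAt FF^[n] (fderiv ℝ FF^[n] z) z := by
  have h : Differentiable ℝ FF := FF_contDiff.differentiable (by simp)
  exact (h.iterate n z).hasFDerivAt

lemma fderiv_iter_succ (n : ℕ) (z : Plane) :
    fderiv ℝ FF^[n + 1] z = (fderiv ℝ FF (FF^[n] z)).comp (fderiv ℝ FF^[n] z) := by
  have h : HasFDerivAt (FF ∘ FF^[n]) ((fderiv ℝ FF (FF^[n] z)).comp (fderiv ℝ FF^[n] z)) z :=
    (FF_hasFDeriv _).comp z (FF_iter_hasFDeriv n z)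
  rw [← iterate_succ'] at h
  exact h.fderiv

lemma fderiv_iter_tt (n : ℕ) (m : ℤ) : fderiv ℝ FF^[n] (XX m) (tt m) = tt (m + n) := by
  induction n with
  | zero =>
    simp
  | succ n ih =>
    rw [fderiv_iter_succ, ContinuousLinearMap.comp_apply, ih, FF_iter_XX]
    unfold XX tt
    rw [fderiv_tau (uu_ne _), ← uu_succ]
    congr 2
    push_cast
    ring

lemma det2_iter (n : ℕ) (m : ℤ) : det2 (fderiv ℝ FF^[n] (XX m)) = 1 := by
  induction n with
  | zero => simp [det2_id]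
  | succ n ih =>
    rw [fderiv_iter_succ, det2_comp, ih, FF_iter_XX]
    unfold XX
    rw [det2_FF_NN (uu_ne _), mul_one]

lemma cross_iter (n : ℕ) (m : ℤ) (v w : Plane) :
    cross (fderiv ℝ FF^[n] (XX m) v) (fderiv ℝ FF^[n] (XX m) w) = cross v w := by
  rw [cross_det2, det2_iter, one_mul]

end Pool.Agent.R191.Ext
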