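import Pool.Agent.R191.Ext.Defs3
import Pool.Agent.R191.Ext.Orb
import Pool.Agent.R191.Ext.Circ
import Pool.Agent.R191.Odo.Erg

/-!
# The product of the blown-up cat map and a strong contraction of the circle
-/

set_option autoImplicit false

open Set Filter Topology MeasureTheory Function
open scoped ContDiff

namespace Pool.Agent.R191.Ext

open Pool.Agent.TH292.MR
open Real (pi_pos pi_gt_three)

/-! ### a lower bound for the derivative -/

lemma GG_FF (z : Plane) : GG (FF z) = z := by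
  unfold GG FF
  rw [BL_AL]
  exact per_comp hP1 hP0 hP0' P1_P0 z

lemma fderiv_per {Q : Plane → Plane} (hQ : ∀ z, 0.035 ≤ nq z → Q z = z) (w : Plane) :
    fderiv ℝ (per Q) w = fderiv ℝ Q (w - kk w) := by
  have e : per Q =ᶠ[𝓝 w] fun z' => Q (z' - kk w) + kk w := per_loc hQ w
  rw [e.fderiv_eq, fderiv_add_const, fderiv_comp_sub]

lemma norm_sub_kk (w : Plane) : ‖w - kk w‖ ≤ 1 := by
  rw [← cl_proj, Prod.norm_def]
  have h1 := cc_mem (proj w).1
  have h2 := cc_mem (proj w).2
  apply max_le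
  · show |cc (proj w).1| ≤ 1
    rw [abs_le]; constructor <;> linarith [h1.1, h1.2]
  · show |cc (proj w).2| ≤ 1
    rw [abs_le]; constructor <;> linarith [h2.1, h2.2]

lemma exists_lower : ∃ C : ℝ, 1 ≤ C ∧ ∀ z v : Plane, ‖v‖ ≤ C * ‖fderiv ℝ FF z v‖ := by
  have hP1s : ContDiff ℝ ∞ P1 := P1_contDiff
  obtain ⟨M, hM⟩ := (isCompact_closedBall (0 : Plane) 1).exists_bound_of_continuousOn
    (f := fderiv ℝ P1) (hP1s.continuous_fderiv (by simp)).continuousOn
  have hM0 : 0 ≤ M := (norm_nonneg _).trans (hM 0 (by simp))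
  refine ⟨M * 3 + 1, by linarith, fun z v => ?_⟩
  -- the derivative of the inverse
  have hG : ∀ w u : Plane, ‖fderiv ℝ GG w u‖ ≤ M * 3 * ‖u‖ := by
    intro w u
    have hB : HasFDerivAt BL (fderiv ℝ BL w) w := (BL_contDiff.differentiable (by simp) w).hasFDerivAt
    have hp : HasFDerivAt (per P1) (fderiv ℝ (per P1) (BL w)) (BL w) :=
      ((per_contDiff hP1 P1_contDiff).differentiable (by simp) _).hasFDerivAt
    have hc : HasFDerivAt GG ((fderiv ℝ (per P1) (BL w)).comp (fderiv ℝ BL w)) w := hp.comp w hB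
    rw [hc.fderiv, ContinuousLinearMap.comp_apply, fderiv_per hP1]
    have h1 : ‖fderiv ℝ BL w u‖ ≤ 3 * ‖u‖ := by
      have e : HasFDerivAt BL ((ContinuousLinearMap.fst ℝ ℝ ℝ - ContinuousLinearMap.snd ℝ ℝ ℝ).prod
          (-ContinuousLinearMap.fst ℝ ℝ ℝ + (2 : ℝ) • ContinuousLinearMap.snd ℝ ℝ ℝ)) w := by
        exact (hasFDerivAt_fst.sub hasFDerivAt_snd).prodMk
          (hasFDerivAt_fst.neg.add (hasFDerivAt_snd.const_smul (2 : ℝ)))
      rw [e.fderiv]
      have a1 : |u.1| ≤ ‖u‖ := norm_fst_le u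
      have a2 : |u.2| ≤ ‖u‖ := norm_snd_le u
      rw [ContinuousLinearMap.prod_apply, Prod.norm_def]
      apply max_le
      · show |u.1 - u.2| ≤ _
        have := abs_sub u.1 u.2
        have := norm_nonneg u
        linarith
      · show |-u.1 + 2 * u.2| ≤ _
        have h3 := abs_add_le (-u.1) (2 * u.2)
        rw [abs_neg, abs_mul, abs_two] at h3
        linarith
    have h2 := hM (BL w - kk (BL w)) (by
      rw [mem_closedBall_zero_iff]; exact norm_sub_kk _)
    calc _ ≤ ‖fderiv ℝ P1 (BL w - kk (BL w))‖ * ‖fderiv ℝ BL w u‖ := ContinuousLinearMap.le_opNorm _ _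
      _ ≤ M * (3 * ‖u‖) := by gcongr
      _ = M * 3 * ‖u‖ := by ring
  have hid : HasFDerivAt (fun z => GG (FF z)) ((fderiv ℝ GG (FF z)).comp (fderiv ℝ FF z)) z :=
    ((GG_contDiff.differentiable (by simp) _).hasFDerivAt).comp z (FF_hasFDeriv z)
  have hid2 : HasFDerivAt (fun z => GG (FF z)) (ContinuousLinearMap.id ℝ Plane) z := by
    have : (fun z => GG (FF z)) = id := funext GG_FF
    rw [this]; exact hasFDerivAt_id z
  have e := congrArg (fun L : Plane →L[ℝ] Plane => L v) (hid.unique hid2)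
  simp only [ContinuousLinearMap.comp_apply, ContinuousLinearMap.id_apply] at e
  have h := hG (FF z) (fderiv ℝ FF z v)
  rw [e] at h
  have := norm_nonneg (fderiv ℝ FF z v)
  linarith

/-- the constant -/
noncomputable def CG : ℝ := exists_lower.choose
lemma one_le_CG : 1 ≤ CG := exists_lower.choose_spec.1
lemma CG_spec (z v : Plane) : ‖v‖ ≤ CG * ‖fderiv ℝ FF z v‖ := exists_lower.choose_spec.2 z v

lemma CG_iter (n : ℕ) (z v : Plane) : ‖v‖ ≤ CG ^ n * ‖fderiv ℝ FF^[n] z v‖ := by
  induction n with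
  | zero => simp
  | succ n ih =>
    have h := CG_spec (FF^[n] z) (fderiv ℝ FF^[n] z v)
    rw [fderiv_iter_succ, ContinuousLinearMap.comp_apply]
    have h0 : 0 ≤ CG ^ n := pow_nonneg (by linarith [one_le_CG]) n
    calc ‖v‖ ≤ CG ^ n * ‖fderiv ℝ FF^[n] z v‖ := ih
      _ ≤ CG ^ n * (CG * ‖fderiv ℝ FF (FF^[n] z) (fderiv ℝ FF^[n] z v)‖) := by gcongr
      _ = _ := by ring

/-- the contraction parameter -/
noncomputable def al : ℝ := 1 - 1 / (2 * CG)

lemma al_pos : 0 < al := by
  unfold al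
  have := one_le_CG
  have h : 1 / (2 * CG) ≤ 1 / 2 := by
    apply one_div_le_one_div_of_le <;> linarith
  linarith

lemma al_lt : al < 1 := by
  unfold al
  have := one_le_CG
  have h : 0 < 1 / (2 * CG) := by positivity
  linarith

lemma one_sub_al : (1 - al) * CG = 1 / 2 := by
  unfold al
  have := one_le_CG
  field_simp
  ring

lemma one_sub_al_le : 1 - al ≤ 1 / 2 := by
  have h1 := one_sub_al
  have h2 := one_le_CG
  have h3 := al_lt
  nlinarith

/-- the circle diffeomorphism -/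
noncomputable abbrev hh1 : UnitAddCircle ≃ₜ UnitAddCircle := hc al_pos al_lt

/-- the product diffeomorphism -/
noncomputable def f3 : T3 ≃ₜ T3 := ff.prodCongr hh1
/-- its lift -/
noncomputable def F3 : R3 → R3 := Prod.map FF (HH al)
/-- the lift of the inverse -/
noncomputable def G3 : R3 → R3 := Prod.map GG (Hh al_pos al_lt).symm

lemma f3_apply (x : T3) : f3 x = (ff x.1, hh1 x.2) := rfl
lemma f3_symm_apply (x : T3) : f3.symm x = (ff.symm x.1, hh1.symm x.2) := rfl

lemma f3_iter (n : ℕ) (x : T3) : f3^[n] x = (ff^[n] x.1, hh1^[n] x.2) := by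
  induction n with
  | zero => rfl
  | succ n ih => rw [iterate_succ_apply', iterate_succ_apply', iterate_succ_apply', ih, f3_apply]

lemma f3_symm_iter (n : ℕ) (x : T3) : f3.symm^[n] x = (ff.symm^[n] x.1, hh1.symm^[n] x.2) := by
  induction n with
  | zero => rfl
  | succ n ih => rw [iterate_succ_apply', iterate_succ_apply', iterate_succ_apply', ih, f3_symm_apply]

theorem smooth3 : IsSmoothDiffeo3 f3 F3 G3 where
  lift z := by
    rw [f3_apply]
    show (ff (proj z.1), hh1 (pc z.2)) = (proj (FF z.1), pc (HH al z.2))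
    rw [isSmoothDiffeo.lift, hc_pc]
  lift_symm z := by
    rw [f3_symm_apply]
    show (ff.symm (proj z.1), hh1.symm (pc z.2)) = (proj (GG z.1), pc ((Hh al_pos al_lt).symm z.2))
    rw [isSmoothDiffeo.lift_symm, hc_symm_pc]
  smooth := by
    unfold F3
    exact FF_contDiff.prodMap (HH_contDiff al)
  smooth_symm := by
    unfold G3
    exact GG_contDiff.prodMap (Hh_symm_contDiff al_pos al_lt)

lemma HH_iter_diff (n : ℕ) (s : ℝ) : HasFDerivAt (HH al)^[n] (fderiv ℝ (HH al)^[n] s) s := by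
  have h : Differentiable ℝ (HH al) := (HH_contDiff al).differentiable (by simp)
  exact (h.iterate n s).hasFDerivAt

lemma fderiv_F3 (n : ℕ) (z : R3) :
    fderiv ℝ F3^[n] z = (fderiv ℝ FF^[n] z.1).prodMap (fderiv ℝ (HH al)^[n] z.2) := by
  have h : F3^[n] = Prod.map FF^[n] (HH al)^[n] := by
    unfold F3
    rw [Prod.map_iterate]
  rw [h]
  exact ((FF_iter_hasFDeriv n z.1).prodMap z (HH_iter_diff n z.2)).fderiv

lemma fderiv_F3_one (z : R3) :
    fderiv ℝ F3 z = (fderiv ℝ FF z.1).prodMap (fderiv ℝ (HH al) z.2) := by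
  have := fderiv_F3 1 z
  simpa using this

lemma fderiv_inl (n : ℕ) (z : R3) (v : Plane) :
    fderiv ℝ F3^[n] z (v, 0) = (fderiv ℝ FF^[n] z.1 v, 0) := by
  rw [fderiv_F3]
  simp

/-- over the torus `s = 0` the derivative of the circle map is `1 - α` -/
lemma HH_int_iter (n : ℕ) (m : ℤ) (s : ℝ) :
    fderiv ℝ (HH al)^[n] (m : ℝ) s = (1 - al) ^ n * s := by
  have hfix : HH al (m : ℝ) = m := by
    have := HH_add_int al 0 m
    rw [zero_add, HH_zero, zero_add] at this
    exact this
  have h1 : HasDerivAt (HH al) (1 - al) (m : ℝ) := by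
    have := HH_hasDeriv al (m : ℝ)
    have e : Real.cos (2 * Real.pi * m) = 1 := by
      rw [mul_comm]; exact Real.cos_int_mul_two_pi m
    rw [e, mul_one] at this
    exact this
  have h2 : HasDerivAt (HH al)^[n] ((1 - al) ^ n) (m : ℝ) := HasDerivAt.iterate (m : ℝ) h1 hfix n
  rw [h2.hasFDerivAt.fderiv]
  simp [mul_comm]

lemma norm_prod_zero (v : Plane) : ‖((v, 0) : R3)‖ = ‖v‖ := by
  rw [Prod.norm_mk, norm_zero, max_eq_left (norm_nonneg v)]

lemma norm_zero_prod (s : ℝ) : ‖((0, s) : R3)‖ = |s| := by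
  rw [Prod.norm_mk, norm_zero, max_eq_right (norm_nonneg s), Real.norm_eq_abs]

/-- the attractor -/
def La : Set T3 := {x | x.2 = 0}

/-- the stable bundle -/
def Es : T3 → Submodule ℝ R3 := fun _ => LinearMap.range (LinearMap.inr ℝ Plane ℝ)
/-- the center-unstable bundle -/
def Ecu : T3 → Submodule ℝ R3 := fun _ => LinearMap.range (LinearMap.inl ℝ Plane ℝ)

lemma mem_Es {x : T3} {v : R3} : v ∈ Es x ↔ v.1 = 0 := by
  unfold Es
  rw [LinearMap.mem_range]
  constructor
  · rintro ⟨s, rfl⟩; rfl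
  · intro h; exact ⟨v.2, by ext <;> simp [h]⟩

lemma mem_Ecu {x : T3} {v : R3} : v ∈ Ecu x ↔ v.2 = 0 := by
  unfold Ecu
  rw [LinearMap.mem_range]
  constructor
  · rintro ⟨s, rfl⟩; rfl
  · intro h; exact ⟨v.1, by ext <;> simp [h]⟩

lemma mem_La {z : R3} : proj3 z ∈ La ↔ ∃ m : ℤ, z.2 = m := by
  have h : proj3 z ∈ La ↔ pc z.2 = pc 0 := Iff.rfl
  rw [h, eq_comm, pc_eq]
  simp

lemma La_closed : IsClosed La := isClosed_eq continuous_snd continuous_const
lemma La_compact : IsCompact La := La_closed.isCompact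

lemma hh1_zero : hh1 0 = 0 := hc_zero al_pos al_lt

lemma f3_image_La : f3 '' La = La := by
  ext x
  rw [f3.image_eq_preimage_symm]
  show hh1.symm x.2 = 0 ↔ x.2 = 0
  rw [Homeomorph.symm_apply_eq, hh1_zero]

lemma contr_nonneg : 0 ≤ 1 - 2 * al / Real.pi := by
  have h1 := al_lt
  have h2 := pi_gt_three
  have h3 : 2 * al / Real.pi ≤ 1 := by
    rw [div_le_one pi_pos]; linarith
  linarith

lemma contr_lt : 1 - 2 * al / Real.pi < 1 := by
  have h1 := al_pos
  have : 0 < 2 * al / Real.pi := div_pos (by linarith) pi_pos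
  linarith

theorem attracting : IsAttracting f3 La := by
  refine ⟨La_compact, f3_image_La, {x | ‖x.2‖ < 1 / 4}, ?_, ?_, ?_, ?_⟩
  · exact isOpen_lt (continuous_norm.comp continuous_snd) continuous_const
  · intro x hx
    have : x.2 = 0 := hx
    show ‖x.2‖ < 1 / 4
    rw [this, norm_zero]; norm_num
  · rintro _ ⟨x, hx, rfl⟩
    have h1 : ‖x.2‖ ≤ 1 / 4 := by
      have hcl : IsClosed {x : T3 | ‖x.2‖ ≤ 1 / 4} :=
        isClosed_le (continuous_norm.comp continuous_snd) continuous_const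
      have hsub : {x : T3 | ‖x.2‖ < 1 / 4} ⊆ {x : T3 | ‖x.2‖ ≤ 1 / 4} := by
        intro y hy
        have hy' : ‖y.2‖ < 1 / 4 := hy
        exact hy'.le
      exact hcl.closure_subset_iff.2 hsub hx
    have h2 := norm_hc_contr al_pos al_lt h1
    show ‖hh1 x.2‖ < 1 / 4
    have h3 := contr_lt
    have h4 := contr_nonneg
    have h5 := norm_nonneg x.2
    rcases eq_or_lt_of_le h5 with h6 | h6
    · rw [← h6, mul_zero] at h2
      linarith
    · nlinarith
  · apply Subset.antisymm
    · intro x hx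
      rw [mem_iInter] at hx
      have key : ∀ (n : ℕ) (w : UnitAddCircle), ‖w‖ < 1 / 4 →
          ‖hh1^[n] w‖ ≤ (1 - 2 * al / Real.pi) ^ n * (1 / 4) ∧ ‖hh1^[n] w‖ ≤ 1 / 4 := by
        intro n w hw
        induction n with
        | zero => simpa using hw.le
        | succ n ih =>
          rw [iterate_succ_apply']
          have h2 := norm_hc_contr al_pos al_lt ih.2
          have h3 := contr_lt
          have h4 := contr_nonneg
          constructor
          · rw [pow_succ']
            calc _ ≤ _ := h2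
              _ ≤ (1 - 2 * al / Real.pi) * ((1 - 2 * al / Real.pi) ^ n * (1 / 4)) := by
                gcongr
                exact ih.1
              _ = _ := by ring
          · have := norm_nonneg (hh1^[n] w)
            nlinarith [ih.2]
      have h1 : ∀ n : ℕ, ‖x.2‖ ≤ (1 - 2 * al / Real.pi) ^ n * (1 / 4) := by
        intro n
        obtain ⟨y, hy, hyx⟩ := hx n
        rw [f3_iter] at hyx
        have : hh1^[n] y.2 = x.2 := congrArg Prod.snd hyx
        rw [← this]
        exact (key n y.2 hy).1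
      have h2 : Tendsto (fun n : ℕ => (1 - 2 * al / Real.pi) ^ n * (1 / 4)) atTop (𝓝 (0 * (1 / 4))) :=
        (tendsto_pow_atTop_nhds_zero_of_lt_one contr_nonneg contr_lt).mul_const _
      rw [zero_mul] at h2
      have h3 := ge_of_tendsto' h2 h1
      exact norm_le_zero_iff.1 h3
    · intro x hx
      rw [mem_iInter]
      intro n
      have h : f3^[n] '' La = La := by
        induction n with
        | zero => simp
        | succ n ih => rw [iterate_succ', image_comp, ih, f3_image_La]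
      rw [← h] at hx
      obtain ⟨y, hy, rfl⟩ := hx
      refine ⟨y, ?_, rfl⟩
      have : y.2 = 0 := hy
      show ‖y.2‖ < 1 / 4
      rw [this, norm_zero]; norm_num

theorem dissipative : IsDissipative f3 := by
  intro η hη hinv ⟨h1, h2⟩
  have hne : η ≠ 0 := by
    rintro rfl
    have : (volume : Measure T3) univ = 0 := h2 (by simp)
    have h3 := isOpen_univ.measure_ne_zero (volume : Measure T3) univ_nonempty
    exact h3 this
  have hu : η univ ≠ 0 := by rwa [Ne, Measure.measure_univ_eq_zero]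
  have hu' : η univ ≠ ⊤ := measure_ne_top η univ
  set ρ : Measure T3 := (η univ)⁻¹ • η with hρ
  have hρp : IsProbabilityMeasure ρ := ⟨by
    rw [hρ, Measure.smul_apply, smul_eq_mul, ENNReal.inv_mul_cancel hu hu']⟩
  have hρi : MeasurePreserving f3 ρ ρ := hinv.smul_measure _
  have hmono := Odo.ae_eq_of_mono hρi (M := fun x : T3 => -‖x.2‖) (C := 1 / 2)
    (by fun_prop) (fun x => by
      rw [abs_neg, abs_norm]
      obtain ⟨s, hs, hs2⟩ := exists_rep x.2
      rw [← hs, norm_pc hs2]; exact hs2)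
    (fun x => neg_le_neg (norm_hc_le al_pos al_lt x.2))
  have hO : IsOpen {x : T3 | 0 < ‖x.2‖ ∧ ‖x.2‖ < 1 / 2} := by
    have hc : Continuous fun x : T3 => ‖x.2‖ := continuous_norm.comp continuous_snd
    exact (isOpen_lt continuous_const hc).inter (isOpen_lt hc continuous_const)
  have hOne : {x : T3 | 0 < ‖x.2‖ ∧ ‖x.2‖ < 1 / 2}.Nonempty := by
    refine ⟨(0, pc (1 / 4)), ?_⟩
    have h : ‖pc (1 / 4)‖ = 1 / 4 := by
      rw [norm_pc (by rw [abs_of_pos (by norm_num)]; norm_num), abs_of_pos (by norm_num)]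
    show 0 < ‖pc (1 / 4)‖ ∧ ‖pc (1 / 4)‖ < 1 / 2
    rw [h]; norm_num
  apply hO.measure_ne_zero (volume : Measure T3) hOne
  apply h2
  have h3 : ρ {x : T3 | 0 < ‖x.2‖ ∧ ‖x.2‖ < 1 / 2} = 0 := by
    rw [measure_eq_zero_iff_ae_notMem]
    filter_upwards [hmono] with x hx
    rintro ⟨hx1, hx2⟩
    have h4 := norm_hc_lt al_pos al_lt (norm_pos_iff.1 hx1) hx2.ne
    have h5 : -‖hh1 x.2‖ = -‖x.2‖ := hx
    linarith
  rw [hρ, Measure.smul_apply, smul_eq_mul, mul_eq_zero] at h3
  rcases h3 with h3 | h3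
  · exact absurd h3 (ENNReal.inv_ne_zero.2 hu')
  · exact h3

end Pool.Agent.R191.Ext
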