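import Pool.Agent.R191.Ext.Bund

/-!
# The SRB measure
-/

set_option autoImplicit false

open Set Filter Topology MeasureTheory Function ProbabilityTheory
open scoped ContDiff

namespace Pool.Agent.R191.Ext

open Pool.Agent.TH292.MR

/-- the inclusion of the attractor -/
def jj (x : Torus) : T3 := (x, 0)

lemma jj_cont : Continuous jj := by unfold jj; fun_prop
lemma jj_meas : Measurable jj := jj_cont.measurable
lemma jj_inj : Injective jj := fun _ _ h => congrArg Prod.fst h
lemma jj_emb : MeasurableEmbedding jj :=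
  (jj_cont.isClosedEmbedding jj_inj).measurableEmbedding

/-- the SRB measure -/
noncomputable def mu3 : Measure T3 := mu.map jj

lemma mu3_prob : IsProbabilityMeasure mu3 := by
  have := mu_inv.prob
  exact Measure.isProbabilityMeasure_map jj_meas.aemeasurable

lemma f3_jj (x : Torus) : f3 (jj x) = jj (ff x) := by
  show (ff x, hh1 0) = (ff x, 0)
  rw [hh1_zero]

lemma hh1_symm_zero : hh1.symm 0 = 0 := by rw [Homeomorph.symm_apply_eq, hh1_zero]

lemma mu3_ergodic : Ergodic f3 mu3 := by
  have hg : MeasurePreserving jj mu mu3 := ⟨jj_meas, rfl⟩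
  exact hg.ergodic_of_ergodic_semiconj mu_ergodic f3.continuous.measurable
    (fun x => (f3_jj x).symm)

lemma mu3_La : mu3 Laᶜ = 0 := by
  unfold mu3
  rw [Measure.map_apply jj_meas La_closed.measurableSet.compl]
  have : jj ⁻¹' Laᶜ = ∅ := by
    ext x
    simp only [mem_preimage, mem_compl_iff, mem_empty_iff_false, iff_false, not_not]
    rfl
  rw [this, measure_empty]

lemma proj3_eq_jj {z : R3} {x : Torus} (h : proj3 z = jj x) : proj z.1 = x ∧ proj3 z ∈ La := by
  refine ⟨congrArg Prod.fst h, ?_⟩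
  rw [h]; rfl

theorem saddle3 : HasSaddleExponents F3 Ecu mu3 := by
  unfold HasSaddleExponents mu3
  rw [jj_emb.ae_map_iff]
  filter_upwards [mu_hyperbolic] with x hx z hz
  obtain ⟨v, w, χp, χm, hli, hp, hm, h1, h2⟩ := hx z.1 (proj3_eq_jj hz).1
  refine ⟨(v, 0), mem_Ecu.2 rfl, (w, 0), mem_Ecu.2 rfl, χp, χm, ?_, hp, hm, ?_, ?_⟩
  · rw [LinearIndependent.pair_iff] at hli ⊢
    intro s t hst
    apply hli s t
    have := congrArg Prod.fst hst
    simpa using this
  · refine h1.congr fun n => ?_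
    rw [fderiv_inl, norm_prod_zero]
  · refine h2.congr fun n => ?_
    rw [fderiv_inl, norm_prod_zero]

lemma pos3 : ∀ᵐ x ∂mu3, ∀ z, proj3 z = x → ∃ (v : R3) (χ : ℝ), 0 < χ ∧ IsExponent F3 z v χ := by
  filter_upwards [saddle3] with x hx z hz
  obtain ⟨v, _, w, _, χp, χm, _, hp, _, h1, _⟩ := hx z hz
  exact ⟨v, χp, hp, h1⟩

lemma hh1_symm_iter_zero (n : ℕ) : hh1.symm^[n] 0 = 0 := by
  induction n with
  | zero => rfl
  | succ n ih => rw [iterate_succ_apply', ih, hh1_symm_zero]

lemma norm_symm_iter (n : ℕ) (s : UnitAddCircle) : ‖s‖ ≤ ‖hh1.symm^[n] s‖ := by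
  induction n with
  | zero => exact le_rfl
  | succ n ih =>
    rw [iterate_succ_apply']
    refine ih.trans ?_
    have := norm_hc_le al_pos al_lt (hh1.symm (hh1.symm^[n] s))
    rwa [Homeomorph.apply_symm_apply] at this

lemma unstable_jj (x : Torus) : unstableSet3 f3 (jj x) = jj '' unstableSet ff x := by
  have e : ∀ (n : ℕ) (y : T3), dist (f3.symm^[n] (jj x)) (f3.symm^[n] y) =
      max (dist (ff.symm^[n] x) (ff.symm^[n] y.1)) ‖hh1.symm^[n] y.2‖ := by
    intro n y
    rw [f3_symm_iter, f3_symm_iter, Prod.dist_eq]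
    have : (jj x).2 = 0 := rfl
    rw [this, hh1_symm_iter_zero, dist_zero_left]
    rfl
  ext y
  constructor
  · rintro ⟨C, θ, h0, h1, h⟩
    have hy : y.2 = 0 := by
      have h2 : ∀ n : ℕ, ‖y.2‖ ≤ C * θ ^ n := fun n => by
        have := h n
        rw [e] at this
        exact (norm_symm_iter n y.2).trans ((le_max_right _ _).trans this)
      have h3 : Tendsto (fun n : ℕ => C * θ ^ n) atTop (𝓝 (C * 0)) :=
        (tendsto_pow_atTop_nhds_zero_of_lt_one h0.le h1).const_mul _
      rw [mul_zero] at h3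
      exact norm_le_zero_iff.1 (ge_of_tendsto' h3 h2)
    refine ⟨y.1, ⟨C, θ, h0, h1, fun n => ?_⟩, Prod.ext rfl hy.symm⟩
    have := h n
    rw [e] at this
    exact (le_max_left _ _).trans this
  · rintro ⟨y, ⟨C, θ, h0, h1, h⟩, rfl⟩
    refine ⟨C, θ, h0, h1, fun n => ?_⟩
    rw [e]
    have h2 : (jj y).2 = 0 := rfl
    rw [h2, hh1_symm_iter_zero, norm_zero, max_eq_left dist_nonneg]
    exact h n

theorem ac3 : HasACConditionals3 f3 mu3 := by
  obtain ⟨Z, hZ, hZs, q, K, hq, hK, hbind, hae⟩ := mu_srb.ac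
  have hprob := mu_inv.prob
  set q3 : T3 → Z × UnitAddCircle := fun x => (q x.1, x.2) with hq3
  have hq3m : Measurable q3 := (hq.comp measurable_fst).prodMk measurable_snd
  set K3 : Kernel (Z × UnitAddCircle) T3 :=
    (K.comap Prod.fst measurable_fst) ×ₖ (Kernel.deterministic Prod.snd measurable_snd) with hK3
  have hK3z : ∀ z : Z, K3 (z, 0) = (K z).map jj := by
    intro z
    rw [hK3, Kernel.prod_apply, Kernel.comap_apply, Kernel.deterministic_apply, Measure.prod_dirac]
    rfl
  refine ⟨Z × UnitAddCircle, inferInstance, inferInstance, q3, K3, hq3m, inferInstance, ?_, ?_⟩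
  · -- disintegration
    have hmap : mu3.map q3 = (mu.map q).map (fun z => (z, (0 : UnitAddCircle))) := by
      unfold mu3
      rw [Measure.map_map hq3m jj_meas, Measure.map_map (by fun_prop) hq]
      rfl
    rw [hmap]
    ext s hs
    rw [Measure.bind_apply hs K3.measurable.aemeasurable,
      lintegral_map (K3.measurable_coe hs) (by fun_prop)]
    have h1 : ∀ z, K3 (z, 0) s = K z (jj ⁻¹' s) := fun z => by
      rw [hK3z, Measure.map_apply jj_meas hs]
    simp only [h1]
    rw [← Measure.bind_apply (jj_meas hs) K.measurable.aemeasurable, hbind]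
    unfold mu3
    rw [Measure.map_apply jj_meas hs]
  · unfold mu3
    rw [jj_emb.ae_map_iff]
    filter_upwards [hae] with x hx
    obtain ⟨hx0, γ, a, b, hγ, hγ', hinj, hγ0, hrange, ha, hb, hfib, hac⟩ := hx
    have hq3x : q3 (jj x) = (q x, 0) := rfl
    have hfib3 : q3 ⁻¹' {(q x, 0)} = jj '' (q ⁻¹' {q x}) := by
      ext y
      simp only [mem_preimage, mem_singleton_iff, mem_image, hq3, Prod.mk.injEq]
      constructor
      · rintro ⟨h1, h2⟩
        exact ⟨y.1, h1, Prod.ext rfl h2.symm⟩
      · rintro ⟨w, h1, rfl⟩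
        exact ⟨h1, rfl⟩
    have hpj : (fun t => proj3 ((γ t, 0) : R3)) = jj ∘ fun t => proj (γ t) := by
      funext t
      unfold proj3 jj
      simp
    refine ⟨?_, fun t => (γ t, 0), a, b, ?_, ?_, ?_, ?_, ?_, ha, hb, ?_, ?_⟩
    · rw [hq3x, hK3z, hfib3]
      have hm : MeasurableSet (q ⁻¹' {q x}) := hq (measurableSet_singleton _)
      rw [Measure.map_apply jj_meas (jj_emb.measurableSet_image.2 hm).compl, preimage_compl,
        preimage_image_eq _ jj_inj]
      exact hx0
    · exact hγ.prodMk contDiff_const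
    · intro t h
      have hd : HasDerivAt γ (deriv γ t) t := (hγ.differentiable (by simp) t).hasDerivAt
      have hd2 : HasDerivAt (fun t => ((γ t, 0) : R3)) (deriv γ t, 0) t :=
        hd.prodMk (hasDerivAt_const t (0 : ℝ))
      rw [hd2.deriv] at h
      exact hγ' t (congrArg Prod.fst h)
    · rw [hpj]; exact jj_inj.comp hinj
    · have h0 := congrFun hpj 0
      rw [comp_apply, hγ0] at h0
      exact h0
    · rw [hpj, range_comp, hrange, unstable_jj]
    · rw [hq3x, hfib3, hfib, hpj, image_comp]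
    · rw [hq3x, hK3z, hpj]
      have hpm : Measurable fun t => proj (γ t) := (proj_cont.comp hγ.continuous).measurable
      rw [← Measure.map_map jj_meas hpm]
      exact hac.map jj_meas

theorem srb3 : IsSRB f3 F3 mu3 := ⟨mu3_prob, mu3_ergodic, pos3, ac3⟩

end Pool.Agent.R191.Ext
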